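import Mathlib

/-!
Definitions: the SparseStack random matrix and oblivious subspace embeddings.
-/

open Matrix

namespace Pool.Agent.H77.SS

/-- A sample consists of the signs `ϱ i j` (`true` stands for `1`, `false` for `-1`) and of the
indices `s i j`, for `i : Fin n` and `j : Fin ζ`. -/
abbrev Sample (n ζ b : ℕ) : Type :=
  (Fin n × Fin ζ → Bool) × (Fin n × Fin ζ → Fin b)

/-- The probability of an event for the uniform distribution on the finite set of samples; in other
words, all the signs and all the indices are independent, the signs are Rademacher variables and the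
indices are uniform. -/
noncomputable def prob {n ζ b : ℕ} (P : Sample n ζ b → Prop) : ℝ :=
  (Nat.card {ω : Sample n ζ b // P ω} : ℝ) / (Nat.card (Sample n ζ b) : ℝ)

/-- The SparseStack matrix of a sample; the columns are indexed by `(j, t)`, the `t`-th column of
the block `j`. The entry in row `i` and column `(j, t)` is `ϱ i j / √ζ` if `s i j = t`, and `0`
otherwise. -/
noncomputable def sparseStack {n ζ b : ℕ} (ω : Sample n ζ b) :
    Matrix (Fin n) (Fin ζ × Fin b) ℝ :=
  Matrix.of fun i c =>
    if ω.2 (i, c.1) = c.2 then (if ω.1 (i, c.1) = true then 1 else -1) / √(ζ : ℝ) else 0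

/-- The SparseStack with parameters `n`, `ζ`, `b` is an oblivious subspace embedding for the
dimension `r` with parameters `α` and `β`. -/
def IsOSE (n ζ b r : ℕ) (α β : ℝ) : Prop :=
  ∀ V : Submodule ℝ (EuclideanSpace ℝ (Fin n)), Module.finrank ℝ V = r →
    9 / 10 ≤ prob (fun ω : Sample n ζ b => ∀ x ∈ V,
      α * ‖x‖ ≤ ‖WithLp.toLp 2 ((sparseStack ω)ᵀ *ᵥ x.ofLp)‖ ∧
      ‖WithLp.toLp 2 ((sparseStack ω)ᵀ *ᵥ x.ofLp)‖ ≤ β * ‖x‖)

end Pool.Agent.H77.SS
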