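import Pool.Agent.H77.SS.Rows
import Pool.Agent.H77.SS.Defs

/-!
Assembly of the main theorem.
-/

open scoped BigOperators InnerProductSpace Matrix
open Real

namespace Pool.Agent.H77.SS

section embed

variable {n ζ b : ℕ} (V : Submodule ℝ (EuclideanSpace ℝ (Fin n)))

/-- The row of `V`. -/
noncomputable def uu (i : Fin n) : V := V.orthogonalProjectionOnto (EuclideanSpace.single i (1 : ℝ))

lemma uu_inner (i : Fin n) (x : V) : ⟪uu V i, x⟫_ℝ = (x : EuclideanSpace ℝ (Fin n)) i := by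
  unfold uu
  rw [Submodule.inner_orthogonalProjectionOnto_eq_of_mem_right, EuclideanSpace.inner_single_left]
  simp

lemma uu_norm_le (i : Fin n) : ‖uu V i‖ ^ 2 ≤ 1 := by
  have h := V.norm_orthogonalProjectionOnto_apply_le (EuclideanSpace.single i (1 : ℝ))
  rw [PiLp.norm_single, norm_one] at h
  have h0 := norm_nonneg (V.orthogonalProjectionOnto (EuclideanSpace.single i (1 : ℝ)))
  unfold uu
  nlinarith

lemma sum_sq_coord (x : V) : ∑ i, ((x : EuclideanSpace ℝ (Fin n)) i) ^ 2 = ‖x‖ ^ 2 := by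
  rw [← EuclideanSpace.real_norm_sq_eq]
  rfl

lemma uu_trace : ∑ i, ‖uu V i‖ ^ 2 = Module.finrank ℝ V := by
  set f := stdOrthonormalBasis ℝ V
  have h1 : ∀ i, ‖uu V i‖ ^ 2 = ∑ j, ⟪uu V i, f j⟫_ℝ ^ 2 := fun i =>
    (f.sum_sq_inner_left (uu V i)).symm
  simp_rw [h1]
  rw [Finset.sum_comm]
  have h2 : ∀ j, ∑ i, ⟪uu V i, f j⟫_ℝ ^ 2 = 1 := by
    intro j
    simp_rw [uu_inner]
    rw [sum_sq_coord, f.orthonormal.1 j, one_pow]
  simp_rw [h2]
  simp

/-- The scaled rows. -/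
noncomputable def aa (ζ : ℕ) (m : Fin n × Fin ζ) : V := (1 / √(ζ : ℝ)) • uu V m.1

/-- The buckets. -/
def bucket (s : Fin n × Fin ζ → Fin b) (c : Fin ζ × Fin b) : Finset (Fin n × Fin ζ) :=
  Finset.univ.filter fun m => m.2 = c.1 ∧ s m = c.2

lemma sum_bucket (s : Fin n × Fin ζ → Fin b) (c : Fin ζ × Fin b) (F : Fin n × Fin ζ → ℝ) :
    ∑ m ∈ bucket s c, F m = ∑ i, if s (i, c.1) = c.2 then F (i, c.1) else 0 := by
  unfold bucket
  rw [Finset.sum_filter, Fintype.sum_prod_type]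
  refine Finset.sum_congr rfl fun i _ => ?_
  rw [Finset.sum_eq_single c.1]
  · simp
  · intro j _ hj
    simp [hj]
  · intro h; exact absurd (Finset.mem_univ _) h

lemma aa_inner (m : Fin n × Fin ζ) (x : V) :
    ⟪aa V ζ m, x⟫_ℝ = (1 / √(ζ : ℝ)) * (x : EuclideanSpace ℝ (Fin n)) m.1 := by
  rw [← uu_inner, Submodule.coe_inner, Submodule.coe_inner]
  unfold aa
  rw [Submodule.coe_smul]
  exact real_inner_smul_left _ _ _

lemma aa_inner_sq (_hζ : 0 < ζ) (m : Fin n × Fin ζ) (x : V) :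
    ⟪aa V ζ m, x⟫_ℝ ^ 2 = (1 / ζ) * ((x : EuclideanSpace ℝ (Fin n)) m.1) ^ 2 := by
  have : (0 : ℝ) ≤ ζ := by positivity
  rw [aa_inner, mul_pow, div_pow, Real.sq_sqrt this, one_pow]

lemma stack_apply (ω : Sample n ζ b) (x : V) (c : Fin ζ × Fin b) :
    ((sparseStack ω)ᵀ *ᵥ (x : EuclideanSpace ℝ (Fin n)).ofLp) c =
      ⟪vec (aa V ζ) (bucket ω.2 c) ω.1, x⟫_ℝ := by
  rw [inner_vec]
  unfold S
  rw [sum_bucket]
  simp only [Matrix.mulVec, dotProduct, Matrix.transpose_apply, sparseStack, Matrix.of_apply]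
  refine Finset.sum_congr rfl fun i _ => ?_
  by_cases h : ω.2 (i, c.1) = c.2
  · rw [if_pos h, if_pos h, aa_inner]
    unfold sg
    by_cases h2 : ω.1 (i, c.1) = true
    · simp [h2, div_eq_mul_inv]
    · simp [h2, div_eq_mul_inv]
  · rw [if_neg h, if_neg h, zero_mul]

lemma stack_norm (ω : Sample n ζ b) (x : V) :
    ‖WithLp.toLp 2 ((sparseStack ω)ᵀ *ᵥ (x : EuclideanSpace ℝ (Fin n)).ofLp)‖ ^ 2 =
      ∑ c, ⟪vec (aa V ζ) (bucket ω.2 c) ω.1, x⟫_ℝ ^ 2 := by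
  rw [EuclideanSpace.real_norm_sq_eq]
  exact Finset.sum_congr rfl fun c _ => by rw [← stack_apply]

lemma bucket_disj (s : Fin n × Fin ζ → Fin b) (c d : Fin ζ × Fin b) (h : c ≠ d) :
    Disjoint (bucket s c) (bucket s d) := by
  rw [Finset.disjoint_left]
  intro m h1 h2
  simp only [bucket, Finset.mem_filter, Finset.mem_univ, true_and] at h1 h2
  apply h
  ext
  · rw [← h1.1, ← h2.1]
  · rw [← h1.2, ← h2.2]

open Classical in
/-- The failure probability given the positions. -/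
lemma given_positions (hζ : 0 < ζ) (p : ℕ) (hp : 1 ≤ p) (s : Fin n × Fin ζ → Fin b)
    (T : ℝ)
    (hs : ∀ c : Fin ζ × Fin b, ∑ m ∈ (Finset.univ.filter fun m : Fin n × Fin ζ => m.2 = c.1) with
      s m = c.2, ‖uu V m.1‖ ^ 2 ≤ T) :
    𝔼 ρ : Fin n × Fin ζ → Bool, (if ¬ (∀ x : V,
      1 / 4 * ‖x‖ ^ 2 ≤ ∑ c, ⟪vec (aa V ζ) (bucket s c) ρ, x⟫_ℝ ^ 2 ∧
      ∑ c, ⟪vec (aa V ζ) (bucket s c) ρ, x⟫_ℝ ^ 2 ≤ 2 * ‖x‖ ^ 2) then (1 : ℝ) else 0) ≤
      2 * (ζ * b : ℕ) *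
        ((384 * p / ζ) ^ p * rexp (T / 2) + (192 * p / ζ) ^ p * rexp (T / 2)) := by
  have hζ' : (0 : ℝ) < ζ := by exact_mod_cast hζ
  have h := signs_rows (aa V ζ) (bucket s) (bucket_disj s) p hp (ζ : ℝ) (T / ζ) hζ'
    (by
      intro c x
      simp_rw [aa_inner_sq V hζ]
      rw [← Finset.mul_sum, ← mul_assoc, mul_one_div_cancel hζ'.ne', one_mul,
        sum_bucket s c (fun m => ((x : EuclideanSpace ℝ (Fin n)) m.1) ^ 2), ← sum_sq_coord]
      refine Finset.sum_le_sum fun i _ => ?_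
      split_ifs
      · exact le_rfl
      · positivity)
    (by
      intro c
      have e : ∀ m : Fin n × Fin ζ, ‖aa V ζ m‖ ^ 2 = (1 / ζ) * ‖uu V m.1‖ ^ 2 := by
        intro m
        unfold aa
        rw [norm_smul, mul_pow, norm_div, norm_one, Real.norm_of_nonneg (by positivity), div_pow,
          Real.sq_sqrt hζ'.le, one_pow]
      simp_rw [e]
      rw [← Finset.mul_sum]
      have h1 := hs c
      have h2 : bucket s c = (Finset.univ.filter fun m : Fin n × Fin ζ => m.2 = c.1).filter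
          (fun m => s m = c.2) := by
        unfold bucket
        rw [Finset.filter_filter]
      rw [h2]
      calc 1 / (ζ : ℝ) * _ ≤ 1 / (ζ : ℝ) * T := by gcongr
        _ = _ := by ring)
    (by
      intro x
      simp_rw [aa_inner_sq V hζ]
      have h3 : ∀ c : Fin ζ × Fin b, ∑ m ∈ bucket s c,
          (1 / (ζ : ℝ)) * ((x : EuclideanSpace ℝ (Fin n)) m.1) ^ 2 =
          ∑ i, if s (i, c.1) = c.2 then
            (1 / (ζ : ℝ)) * ((x : EuclideanSpace ℝ (Fin n)) i) ^ 2 else 0 := fun c =>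
        sum_bucket s c (fun m => (1 / (ζ : ℝ)) * ((x : EuclideanSpace ℝ (Fin n)) m.1) ^ 2)
      simp_rw [h3]
      rw [Fintype.sum_prod_type]
      have h4 : ∀ j : Fin ζ, ∑ t : Fin b, ∑ i, (if s (i, j) = t then
            (1 / (ζ : ℝ)) * ((x : EuclideanSpace ℝ (Fin n)) i) ^ 2 else 0) =
            (1 / (ζ : ℝ)) * ‖x‖ ^ 2 := by
        intro j
        rw [Finset.sum_comm, ← sum_sq_coord, Finset.mul_sum]
        refine Finset.sum_congr rfl fun i _ => ?_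
        simp
      simp only
      simp_rw [h4]
      simp
      field_simp)
  have e1 : (ζ : ℝ) * (T / ζ) / 2 = T / 2 := by field_simp
  have e2 : Fintype.card (Fin ζ × Fin b) = ζ * b := by simp
  rw [e1, e2] at h
  exact h

open Classical in
/-- The failure probability. -/
lemma total_fail (hζ : 0 < ζ) (hb : 1 ≤ b) (p : ℕ) (hp : 1 ≤ p) (T : ℝ) :
    𝔼 ω : Sample n ζ b, (if ¬ (∀ x : V,
      1 / 4 * ‖x‖ ^ 2 ≤ ∑ c, ⟪vec (aa V ζ) (bucket ω.2 c) ω.1, x⟫_ℝ ^ 2 ∧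
      ∑ c, ⟪vec (aa V ζ) (bucket ω.2 c) ω.1, x⟫_ℝ ^ 2 ≤ 2 * ‖x‖ ^ 2) then (1 : ℝ) else 0) ≤
      (ζ * b : ℕ) * rexp (-T + (rexp 1 - 1) * Module.finrank ℝ V / b) + 2 * (ζ * b : ℕ) *
        ((384 * p / ζ) ^ p * rexp (T / 2) + (192 * p / ζ) ^ p * rexp (T / 2)) := by
  set K := 2 * ((ζ * b : ℕ) : ℝ) *
        ((384 * p / ζ) ^ p * rexp (T / 2) + (192 * p / ζ) ^ p * rexp (T / 2)) with hK
  have hK0 : 0 ≤ K := by positivity
  rw [← Finset.univ_product_univ, Finset.expect_product, Finset.expect_comm]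
  set W : (Fin n × Fin ζ → Fin b) → Fin ζ × Fin b → ℝ := fun s c =>
    ∑ m ∈ (Finset.univ.filter fun m : Fin n × Fin ζ => m.2 = c.1) with s m = c.2, ‖uu V m.1‖ ^ 2
    with hW
  have h1 : ∀ s : Fin n × Fin ζ → Fin b, 𝔼 ρ : Fin n × Fin ζ → Bool, (if ¬ (∀ x : V,
      1 / 4 * ‖x‖ ^ 2 ≤ ∑ c, ⟪vec (aa V ζ) (bucket s c) ρ, x⟫_ℝ ^ 2 ∧
      ∑ c, ⟪vec (aa V ζ) (bucket s c) ρ, x⟫_ℝ ^ 2 ≤ 2 * ‖x‖ ^ 2) then (1 : ℝ) else 0) ≤
      (∑ c, if T < W s c then (1 : ℝ) else 0) + K := by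
    intro s
    by_cases hs : ∀ c, W s c ≤ T
    · have := given_positions V hζ p hp s T hs
      have h0 : (0 : ℝ) ≤ ∑ c, if T < W s c then (1 : ℝ) else 0 := by positivity
      linarith
    · push Not at hs
      obtain ⟨c, hc⟩ := hs
      have h2 : (1 : ℝ) ≤ ∑ c, if T < W s c then (1 : ℝ) else 0 := by
        have h3 := Finset.single_le_sum (f := fun c => if T < W s c then (1 : ℝ) else 0)
          (fun c _ => by positivity) (Finset.mem_univ c)
        simp only [hc, if_true] at h3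
        exact h3
      have h4 : 𝔼 ρ : Fin n × Fin ζ → Bool, (if ¬ (∀ x : V,
          1 / 4 * ‖x‖ ^ 2 ≤ ∑ c, ⟪vec (aa V ζ) (bucket s c) ρ, x⟫_ℝ ^ 2 ∧
          ∑ c, ⟪vec (aa V ζ) (bucket s c) ρ, x⟫_ℝ ^ 2 ≤ 2 * ‖x‖ ^ 2) then (1 : ℝ) else 0) ≤
          1 := by
        refine Finset.expect_le Finset.univ_nonempty fun ρ _ => ?_
        split_ifs <;> norm_num
      linarith
  refine (Finset.expect_le_expect fun s _ => h1 s).trans ?_
  have : Nonempty (Fin b) := ⟨⟨0, hb⟩⟩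
  rw [Finset.expect_add_distrib, Fintype.expect_const, Finset.expect_sum_comm]
  gcongr
  calc ∑ c : Fin ζ × Fin b, 𝔼 s : Fin n × Fin ζ → Fin b, (if T < W s c then (1 : ℝ) else 0)
      ≤ ∑ c : Fin ζ × Fin b, rexp (-T + (rexp 1 - 1) * Module.finrank ℝ V / b) := by
        refine Finset.sum_le_sum fun c _ => ?_
        refine chernoff hb (Finset.univ.filter fun m : Fin n × Fin ζ => m.2 = c.1)
          (fun m => ‖uu V m.1‖ ^ 2) (fun m => by positivity) (fun m => uu_norm_le V m.1) c.2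
          (Module.finrank ℝ V) ?_ T
        rw [Finset.sum_filter, Fintype.sum_prod_type, ← uu_trace]
        refine Finset.sum_le_sum fun i _ => ?_
        simp
    _ = _ := by simp

end embed

end Pool.Agent.H77.SS
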