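import Mathlib

/-!
Matrix barrier, deterministic part: the quadratic form of the inverse of a positive definite
operator and its change under a rank one update minus a multiple of its mean.
-/

open scoped InnerProductSpace

namespace Pool.Agent.H77.SS

variable {E : Type*} [NormedAddCommGroup E] [InnerProductSpace ℝ E]

/-- A symmetric positive definite operator. -/
structure PD (A : E →ₗ[ℝ] E) : Prop where
  symm : ∀ x y, ⟪A x, y⟫_ℝ = ⟪x, A y⟫_ℝ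
  pos : ∀ x, x ≠ 0 → 0 < ⟪x, A x⟫_ℝ

/-- The inverse of `A` (junk value `0` if `A` is not invertible). -/
noncomputable def inv (A : E →ₗ[ℝ] E) : E →ₗ[ℝ] E := Ring.inverse (A : Module.End ℝ E)

/-- The quadratic form of the inverse of `A`. -/
noncomputable def X (A : E →ₗ[ℝ] E) (w : E) : ℝ := ⟪w, inv A w⟫_ℝ

/-- The rank one operator `x ↦ ⟪v, x⟫ v`. -/
noncomputable def rk (v : E) : E →ₗ[ℝ] E := (innerₛₗ ℝ v).smulRight v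

/-- The sum of the rank one operators of the vectors `a i`, `i ∈ B`. -/
noncomputable def Cop {I : Type*} (a : I → E) (B : Finset I) : E →ₗ[ℝ] E := ∑ i ∈ B, rk (a i)

@[simp] lemma rk_apply (v x : E) : rk v x = ⟪v, x⟫_ℝ • v := by
  simp [rk]

lemma rk_inner (v x y : E) : ⟪rk v x, y⟫_ℝ = ⟪v, x⟫_ℝ * ⟪v, y⟫_ℝ := by
  rw [rk_apply, real_inner_smul_left]

lemma inner_rk (v x y : E) : ⟪x, rk v y⟫_ℝ = ⟪v, x⟫_ℝ * ⟪v, y⟫_ℝ := by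
  rw [rk_apply, real_inner_smul_right, real_inner_comm, mul_comm, real_inner_comm x v]

lemma Cop_inner {I : Type*} (a : I → E) (B : Finset I) (x y : E) :
    ⟪Cop a B x, y⟫_ℝ = ∑ i ∈ B, ⟪a i, x⟫_ℝ * ⟪a i, y⟫_ℝ := by
  unfold Cop
  rw [LinearMap.sum_apply, sum_inner]
  exact Finset.sum_congr rfl fun i _ => rk_inner _ _ _

lemma inner_Cop {I : Type*} (a : I → E) (B : Finset I) (x y : E) :
    ⟪x, Cop a B y⟫_ℝ = ∑ i ∈ B, ⟪a i, x⟫_ℝ * ⟪a i, y⟫_ℝ := by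
  unfold Cop
  rw [LinearMap.sum_apply, inner_sum]
  exact Finset.sum_congr rfl fun i _ => inner_rk _ _ _

lemma Cop_symm {I : Type*} (a : I → E) (B : Finset I) (x y : E) :
    ⟪Cop a B x, y⟫_ℝ = ⟪x, Cop a B y⟫_ℝ := by
  rw [Cop_inner, inner_Cop]

lemma Cop_sq {I : Type*} (a : I → E) (B : Finset I) (x : E) :
    ⟪x, Cop a B x⟫_ℝ = ∑ i ∈ B, ⟪a i, x⟫_ℝ ^ 2 := by
  rw [inner_Cop]
  exact Finset.sum_congr rfl fun i _ => by ring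

lemma Cop_nonneg {I : Type*} (a : I → E) (B : Finset I) (x : E) :
    0 ≤ ⟪x, Cop a B x⟫_ℝ := by
  rw [Cop_sq]; positivity

lemma Cop_cs {I : Type*} (a : I → E) (B : Finset I) (x y : E) :
    ⟪Cop a B x, y⟫_ℝ ^ 2 ≤ ⟪x, Cop a B x⟫_ℝ * ⟪y, Cop a B y⟫_ℝ := by
  rw [Cop_inner, Cop_sq, Cop_sq]
  exact Finset.sum_mul_sq_le_sq_mul_sq _ _ _

lemma PD.nonneg {A : E →ₗ[ℝ] E} (hA : PD A) (x : E) : 0 ≤ ⟪x, A x⟫_ℝ := by
  by_cases hx : x = 0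
  · simp [hx]
  · exact (hA.pos x hx).le

variable [FiniteDimensional ℝ E]

lemma PD.isUnit {A : E →ₗ[ℝ] E} (hA : PD A) : IsUnit (A : Module.End ℝ E) := by
  rw [LinearMap.isUnit_iff_ker_eq_bot]
  rw [LinearMap.ker_eq_bot']
  intro x hx
  by_contra h
  have := hA.pos x h
  rw [hx] at this
  simp at this

lemma PD.apply_inv {A : E →ₗ[ℝ] E} (hA : PD A) (w : E) : A (inv A w) = w := by
  have := Ring.mul_inverse_cancel (A : Module.End ℝ E) hA.isUnit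
  have h2 := congrArg (fun f : Module.End ℝ E => f w) this
  exact h2

lemma PD.X_eq {A : E →ₗ[ℝ] E} (hA : PD A) (w : E) : X A w = ⟪inv A w, A (inv A w)⟫_ℝ := by
  unfold X
  rw [hA.apply_inv, real_inner_comm]

lemma PD.X_nonneg {A : E →ₗ[ℝ] E} (hA : PD A) (w : E) : 0 ≤ X A w := by
  rw [hA.X_eq]; exact hA.nonneg _

omit [FiniteDimensional ℝ E] in
/-- Cauchy-Schwarz. -/
lemma PD.cs {A : E →ₗ[ℝ] E} (hA : PD A) (x y : E) :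
    ⟪A x, y⟫_ℝ ^ 2 ≤ ⟪x, A x⟫_ℝ * ⟪y, A y⟫_ℝ := by
  have h : ∀ t : ℝ, 0 ≤ ⟪y, A y⟫_ℝ * (t * t) + (2 * ⟪A x, y⟫_ℝ) * t + ⟪x, A x⟫_ℝ := by
    intro t
    have := hA.nonneg (x + t • y)
    have e : ⟪x + t • y, A (x + t • y)⟫_ℝ =
        ⟪y, A y⟫_ℝ * (t * t) + (2 * ⟪A x, y⟫_ℝ) * t + ⟪x, A x⟫_ℝ := by
      rw [map_add, map_smul, inner_add_left, inner_add_right, inner_add_right,
        real_inner_smul_left, real_inner_smul_left, real_inner_smul_right, real_inner_smul_right,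
        ← hA.symm x y, real_inner_comm (A x) y]
      ring
    rw [e] at this
    exact this
  have := discrim_le_zero h
  unfold discrim at this
  nlinarith

lemma PD.cs_X {A : E →ₗ[ℝ] E} (hA : PD A) (w x : E) :
    ⟪w, x⟫_ℝ ^ 2 ≤ X A w * ⟪x, A x⟫_ℝ := by
  have := hA.cs (inv A w) x
  rw [hA.apply_inv] at this
  rw [X]
  rwa [real_inner_comm (inv A w) w]

/-- One step of the barrier. -/
lemma one_step {I : Type*} {A : E →ₗ[ℝ] E} (hA : PD A) (a : I → E) (B : Finset I) (v w : E)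
    (σ γ ε δ : ℝ) (hσ : σ = 1 ∨ σ = -1) (hγ : 0 ≤ γ) (hε : 0 ≤ ε) (hδ : 0 ≤ δ)
    (hγε : γ * ε ≤ 1 / 4) (hδ4 : δ ≤ 1 / 4)
    (hC : ∀ x, ⟪x, Cop a B x⟫_ℝ ≤ ε * ⟪x, A x⟫_ℝ)
    (hv : ∀ x, ⟪v, x⟫_ℝ ^ 2 ≤ δ * ⟪x, A x⟫_ℝ) :
    PD (A + σ • (rk v - γ • Cop a B)) ∧
    X (A + σ • (rk v - γ • Cop a B)) w ≤
      X A w - σ * (⟪v, inv A w⟫_ℝ ^ 2 - γ * ⟪inv A w, Cop a B (inv A w)⟫_ℝ) +
        3 * (δ * ⟪v, inv A w⟫_ℝ ^ 2 + γ ^ 2 * ε * ⟪inv A w, Cop a B (inv A w)⟫_ℝ) := by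
  set A' : E →ₗ[ℝ] E := A + σ • (rk v - γ • Cop a B) with hA'def
  have hA'x : ∀ x y, ⟪x, A' y⟫_ℝ =
      ⟪x, A y⟫_ℝ + σ * (⟪v, x⟫_ℝ * ⟪v, y⟫_ℝ - γ * ⟪x, Cop a B y⟫_ℝ) := by
    intro x y
    rw [hA'def, LinearMap.add_apply, LinearMap.smul_apply, LinearMap.sub_apply,
      LinearMap.smul_apply, inner_add_right, real_inner_smul_right, inner_sub_right,
      real_inner_smul_right, inner_rk]
  have hA'y : ∀ x y, ⟪A' x, y⟫_ℝ =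
      ⟪A x, y⟫_ℝ + σ * (⟪v, x⟫_ℝ * ⟪v, y⟫_ℝ - γ * ⟪Cop a B x, y⟫_ℝ) := by
    intro x y
    rw [hA'def, LinearMap.add_apply, LinearMap.smul_apply, LinearMap.sub_apply,
      LinearMap.smul_apply, inner_add_left, real_inner_smul_left, inner_sub_left,
      real_inner_smul_left, rk_inner]
  have key : ∀ x, |σ * (⟪v, x⟫_ℝ ^ 2 - γ * ⟪x, Cop a B x⟫_ℝ)| ≤ 1 / 4 * ⟪x, A x⟫_ℝ := by
    intro x
    have h0 := hA.nonneg x
    have h1 := hv x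
    have h2 := hC x
    have h3 := Cop_nonneg a B x
    have h4 : γ * ⟪x, Cop a B x⟫_ℝ ≤ 1 / 4 * ⟪x, A x⟫_ℝ := by
      calc γ * ⟪x, Cop a B x⟫_ℝ ≤ γ * (ε * ⟪x, A x⟫_ℝ) := by gcongr
        _ = (γ * ε) * ⟪x, A x⟫_ℝ := by ring
        _ ≤ 1 / 4 * ⟪x, A x⟫_ℝ := by gcongr
    have h5 : ⟪v, x⟫_ℝ ^ 2 ≤ 1 / 4 * ⟪x, A x⟫_ℝ := h1.trans (by gcongr)
    have h6 : 0 ≤ γ * ⟪x, Cop a B x⟫_ℝ := by positivity
    have h7 : 0 ≤ ⟪v, x⟫_ℝ ^ 2 := by positivity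
    have hσa : |σ| = 1 := by rcases hσ with h | h <;> simp [h]
    rw [abs_mul, hσa, one_mul, abs_le]
    constructor <;> linarith
  have hPD : PD A' := by
    refine ⟨fun x y => ?_, fun x hx => ?_⟩
    · rw [hA'y, hA'x, hA.symm, Cop_symm]
    · have h1 := hA.pos x hx
      have h2 := (abs_le.1 (key x)).1
      rw [hA'x, ← pow_two]
      linarith
  refine ⟨hPD, ?_⟩
  set y := inv A w with hy
  set y' := inv A' w with hy'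
  have hAy : A y = w := hA.apply_inv w
  have hAy' : A' y' = w := hPD.apply_inv w
  obtain ⟨h, hh⟩ : ∃ h, y' = y + h := ⟨y' - y, by abel⟩
  have hX' : X A' w = ⟪w, y'⟫_ℝ := rfl
  have hX : X A w = ⟪w, y⟫_ℝ := rfl
  have e1 : ⟪w, y'⟫_ℝ = 2 * ⟪w, y'⟫_ℝ - ⟪y', A' y'⟫_ℝ := by
    rw [hAy', real_inner_comm w y']; ring
  have e2 : ⟪w, y'⟫_ℝ = ⟪w, y⟫_ℝ + ⟪w, h⟫_ℝ := by rw [hh, inner_add_right]
  have e3 : ⟪y', A y'⟫_ℝ = ⟪w, y⟫_ℝ + 2 * ⟪w, h⟫_ℝ + ⟪h, A h⟫_ℝ := by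
    rw [hh, map_add, inner_add_left, inner_add_right, inner_add_right, ← hA.symm y h, hAy,
      real_inner_comm w y, real_inner_comm w h]
    ring
  have e4 : ⟪y', Cop a B y'⟫_ℝ = ⟪y, Cop a B y⟫_ℝ + 2 * ⟪Cop a B y, h⟫_ℝ
      + ⟪h, Cop a B h⟫_ℝ := by
    rw [hh, map_add, inner_add_left, inner_add_right, inner_add_right, ← Cop_symm a B y h,
      real_inner_comm (Cop a B y) h]
    ring
  have e5 : ⟪v, y'⟫_ℝ = ⟪v, y⟫_ℝ + ⟪v, h⟫_ℝ := by rw [hh, inner_add_right]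
  have e6 : X A' w = X A w - ⟪h, A h⟫_ℝ - σ * ((⟪v, y⟫_ℝ + ⟪v, h⟫_ℝ) ^ 2 -
      γ * (⟪y, Cop a B y⟫_ℝ + 2 * ⟪Cop a B y, h⟫_ℝ + ⟪h, Cop a B h⟫_ℝ)) := by
    rw [hX', hX, e1, hA'x, e3, e4, e5, e2]
    ring
  rw [e6]
  have k1 := hv h
  have k2 := hC h
  have k3 := Cop_nonneg a B h
  have k4 := Cop_nonneg a B y
  have k5 := Cop_cs a B y h
  have k6 := hA.nonneg h
  have k7 := key h
  set q := ⟪v, y⟫_ℝ
  set c := ⟪v, h⟫_ℝ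
  set s := ⟪y, Cop a B y⟫_ℝ
  set z := ⟪Cop a B y, h⟫_ℝ
  set k := ⟪h, Cop a B h⟫_ℝ
  set η := ⟪h, A h⟫_ℝ
  have m1 : |2 * q * c| ≤ 3 * δ * q ^ 2 + η / 3 := by
    apply abs_le_of_sq_le_sq _ (by positivity)
    have : (2 * q * c) ^ 2 ≤ 4 * (δ * q ^ 2 * η) := by
      calc (2 * q * c) ^ 2 = 4 * (q ^ 2 * c ^ 2) := by ring
        _ ≤ 4 * (q ^ 2 * (δ * η)) := by gcongr
        _ = _ := by ring
    nlinarith [sq_nonneg (3 * δ * q ^ 2 - η / 3)]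
  have m2 : |2 * γ * z| ≤ 3 * (γ ^ 2 * ε * s) + η / 3 := by
    apply abs_le_of_sq_le_sq _ (by positivity)
    have : (2 * γ * z) ^ 2 ≤ 4 * (γ ^ 2 * ε * s * η) := by
      calc (2 * γ * z) ^ 2 = 4 * (γ ^ 2 * z ^ 2) := by ring
        _ ≤ 4 * (γ ^ 2 * (s * k)) := by gcongr
        _ ≤ 4 * (γ ^ 2 * (s * (ε * η))) := by gcongr
        _ = _ := by ring
    nlinarith [sq_nonneg (3 * (γ ^ 2 * ε * s) - η / 3)]
  have m3 := (abs_le.1 m1)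
  have m4 := (abs_le.1 m2)
  have m5 := (abs_le.1 k7)
  obtain ⟨m31, m32⟩ := m3
  obtain ⟨m41, m42⟩ := m4
  obtain ⟨m51, m52⟩ := m5
  rcases hσ with hs | hs
  · rw [hs] at m51 m52 ⊢
    linarith
  · rw [hs] at m51 m52 ⊢
    linarith

end Pool.Agent.H77.SS
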