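import Mathlib

/-!
One dimensional Gaussian facts: quadratic exponential moments and a lower bound for the even
moments.
-/

open scoped BigOperators NNReal Nat
open MeasureTheory ProbabilityTheory Real

namespace Pool.Agent.H77.SS

lemma pdf01 (x : ℝ) : gaussianPDFReal 0 1 x = (√(2 * π))⁻¹ * rexp (-(x ^ 2) / 2) := by
  rw [gaussianPDFReal_def]
  simp

lemma integrable_iff01 (f : ℝ → ℝ) :
    Integrable f (gaussianReal 0 1) ↔ Integrable (fun x => gaussianPDFReal 0 1 x • f x) := by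
  rw [gaussianReal_of_var_ne_zero 0 one_ne_zero,
    integrable_withDensity_iff_integrable_smul' (measurable_gaussianPDF 0 1)
      (ae_of_all _ fun _ => gaussianPDF_lt_top)]
  simp only [toReal_gaussianPDF]

lemma smul_pdf (t x : ℝ) : gaussianPDFReal 0 1 x • rexp (t * x ^ 2) =
    (√(2 * π))⁻¹ * rexp (-(1 / 2 - t) * x ^ 2) := by
  rw [pdf01, smul_eq_mul, mul_assoc, ← Real.exp_add]
  congr 2
  ring

lemma integrable_exp_sq {t : ℝ} (ht : t < 1 / 2) :
    Integrable (fun x => rexp (t * x ^ 2)) (gaussianReal 0 1) := by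
  rw [integrable_iff01]
  simp_rw [smul_pdf]
  exact (integrable_exp_neg_mul_sq (by linarith)).const_mul _

lemma integral_exp_sq {t : ℝ} (ht : t < 1 / 2) :
    ∫ x, rexp (t * x ^ 2) ∂(gaussianReal 0 1) = 1 / √(1 - 2 * t) := by
  rw [integral_gaussianReal_eq_integral_smul one_ne_zero]
  simp_rw [smul_pdf]
  have h1 : 0 < 1 - 2 * t := by linarith
  have h2 : (1 / 2 - t) ≠ 0 := by linarith
  rw [integral_const_mul, integral_gaussian, ← Real.sqrt_inv, ← Real.sqrt_mul (by positivity)]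
  have h3 : (2 * π)⁻¹ * (π / (1 / 2 - t)) = (1 - 2 * t)⁻¹ := by
    have h4 : 1 - 2 * t ≠ 0 := h1.ne'
    field_simp
  rw [h3, Real.sqrt_inv, one_div]

lemma integral_exp_sq_le {t : ℝ} (ht0 : 0 ≤ t) (ht : t ≤ 1 / 4) :
    ∫ x, rexp (t * x ^ 2) ∂(gaussianReal 0 1) ≤ rexp (2 * t) := by
  rw [integral_exp_sq (by linarith)]
  have h1 : 0 < 1 - 2 * t := by linarith
  rw [div_le_iff₀ (Real.sqrt_pos.2 h1)]
  have h2 : 1 ≤ (rexp (2 * t)) ^ 2 * (1 - 2 * t) := by
    have h3 := Real.quadratic_le_exp_of_nonneg (x := 4 * t) (by positivity)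
    have h4 : (rexp (2 * t)) ^ 2 = rexp (4 * t) := by
      rw [← Real.exp_nat_mul]; congr 1; push_cast; ring
    rw [h4]
    have h5 : 1 ≤ (1 + 4 * t + (4 * t) ^ 2 / 2) * (1 - 2 * t) := by
      have : (1 + 4 * t + (4 * t) ^ 2 / 2) * (1 - 2 * t) = 1 + 2 * t * (1 - 8 * t ^ 2) := by ring
      rw [this]
      have h6 : 0 ≤ 1 - 8 * t ^ 2 := by nlinarith
      have : 0 ≤ 2 * t * (1 - 8 * t ^ 2) := by positivity
      linarith
    exact h5.trans (by gcongr)
  have h7 : rexp (2 * t) * √(1 - 2 * t) = √((rexp (2 * t)) ^ 2 * (1 - 2 * t)) := by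
    rw [Real.sqrt_mul (by positivity), Real.sqrt_sq (by positivity)]
  rw [h7]
  exact Real.one_le_sqrt.2 h2

lemma integrable_pow_even (p : ℕ) : Integrable (fun x : ℝ => x ^ (2 * p)) (gaussianReal 0 1) := by
  have h := integrable_exp_sq (t := 1 / 4) (by norm_num)
  refine (h.const_mul ((p ! : ℝ) * 4 ^ p)).mono' (by fun_prop) (ae_of_all _ fun x => ?_)
  have h1 : 0 ≤ x ^ 2 / 4 := by positivity
  have h2 := Real.pow_div_factorial_le_exp (x ^ 2 / 4) h1 p
  rw [div_le_iff₀ (by positivity)] at h2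
  rw [Real.norm_of_nonneg (by rw [pow_mul]; positivity)]
  calc x ^ (2 * p) = (x ^ 2 / 4) ^ p * 4 ^ p := by rw [← mul_pow, pow_mul]; congr 1; ring
    _ ≤ (rexp (x ^ 2 / 4) * p !) * 4 ^ p := by gcongr
    _ = _ := by
      have : x ^ 2 / 4 = 1 / 4 * x ^ 2 := by ring
      rw [this]; ring

lemma factorial_le_doubleFactorial (p : ℕ) : p ! ≤ (2 * p - 1)‼ := by
  induction p with
  | zero => simp
  | succ n ih =>
    have h1 : 2 * (n + 1) - 1 = 2 * n + 1 := by omega
    rw [h1, Nat.factorial_succ]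
    cases n with
    | zero => simp
    | succ m =>
      have h2 : 2 * (m + 1) + 1 = (2 * (m + 1) - 1) + 2 := by omega
      rw [h2, Nat.doubleFactorial_add_two]
      apply Nat.mul_le_mul
      · omega
      · exact ih

lemma factorial_le_moment (p : ℕ) : (p ! : ℝ) ≤ ∫ x, x ^ (2 * p) ∂(gaussianReal 0 1) := by
  have h0 : ∫ x, x ^ (2 * p) ∂(gaussianReal 0 1) = ((2 * p - 1)‼ : ℝ) := by
    rw [integral_gaussianReal_eq_integral_smul one_ne_zero]
    have h1 : ∀ x : ℝ, gaussianPDFReal 0 1 x • x ^ (2 * p) =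
        (fun y : ℝ => (√(2 * π))⁻¹ * (y ^ ((2 * p : ℕ) : ℝ) * rexp (-(1 / 2) * y ^ (2 : ℝ)))) |x| := by
      intro x
      rw [pdf01, smul_eq_mul]
      simp only
      rw [Real.rpow_natCast, Real.rpow_two, sq_abs, pow_mul, pow_mul, sq_abs]
      have : -(x ^ 2) / 2 = -(1 / 2) * x ^ 2 := by ring
      rw [this]; ring
    rw [integral_congr_ae (ae_of_all _ h1)]
    rw [integral_comp_abs (f := fun y : ℝ => (√(2 * π))⁻¹ * (y ^ ((2 * p : ℕ) : ℝ) *
      rexp (-(1 / 2) * y ^ (2 : ℝ)))), integral_const_mul,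
      integral_rpow_mul_exp_neg_mul_rpow (by norm_num) (by
        have : (0 : ℝ) ≤ ((2 * p : ℕ) : ℝ) := by positivity
        linarith) (by norm_num)]
    have h2 : (((2 * p : ℕ) : ℝ) + 1) / 2 = p + 1 / 2 := by push_cast; ring
    have h3 : -(((2 * p : ℕ) : ℝ) + 1) / 2 = -(p + 1 / 2 : ℝ) := by push_cast; ring
    rw [h2, h3, Real.Gamma_nat_add_half]
    have h4 : (1 / 2 : ℝ) ^ (-(p + 1 / 2 : ℝ)) = 2 ^ p * √2 := by
      rw [one_div, Real.inv_rpow (by norm_num), ← Real.rpow_neg (by norm_num), neg_neg,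
        Real.rpow_add (by norm_num), Real.rpow_natCast, Real.sqrt_eq_rpow, one_div]
    rw [h4, Real.sqrt_mul (by norm_num)]
    have h5 : √2 ≠ 0 := by positivity
    have h6 : √π ≠ 0 := by positivity
    field_simp
  rw [h0]
  exact_mod_cast factorial_le_doubleFactorial p

end Pool.Agent.H77.SS
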