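import Pool.Agent.H77.SS.Rad

/-!
One step of the process: the `p`-th moment of the quadratic form of the inverse does not
increase.
-/

open scoped BigOperators InnerProductSpace
open Finset

namespace Pool.Agent.H77.SS

variable {E : Type*} [NormedAddCommGroup E] [InnerProductSpace ℝ E]
variable {I : Type*}

/-- Random signed sum of the vectors `a i`, `i ∈ B`. -/
noncomputable def vec (a : I → E) (B : Finset I) (ρ : I → Bool) : E := ∑ i ∈ B, sg (ρ i) • a i

lemma inner_vec (a : I → E) (B : Finset I) (ρ : I → Bool) (y : E) :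
    ⟪vec a B ρ, y⟫_ℝ = S (fun i => ⟪a i, y⟫_ℝ) B ρ := by
  unfold vec S
  rw [sum_inner]
  exact Finset.sum_congr rfl fun i _ => by rw [real_inner_smul_left]

variable [FiniteDimensional ℝ E] [Fintype I] [DecidableEq I]

open Classical in
theorem step_expect {A : E →ₗ[ℝ] E} (hA : PD A) (a : I → E) (B : Finset I) (w : E)
    (p : ℕ) (hp : 1 ≤ p) (σ γ : ℝ) (hσγ : (σ = 1 ∧ γ = 3 / 4) ∨ (σ = -1 ∧ γ = 3 / 2))
    (hC : ∀ x, ⟪x, Cop a B x⟫_ℝ ≤ (1 / (48 * (p : ℝ))) * ⟪x, A x⟫_ℝ) :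
    𝔼 ρ : I → Bool, (if (∀ x, ⟪vec a B ρ, x⟫_ℝ ^ 2 ≤ (1 / 24) * ⟪x, A x⟫_ℝ) then
      X (A + σ • (rk (vec a B ρ) - γ • Cop a B)) w ^ p else 0) ≤ X A w ^ p := by
  have hP : (1 : ℝ) ≤ p := by exact_mod_cast hp
  have hP0 : (0 : ℝ) < p := by linarith
  set ε : ℝ := 1 / (48 * (p : ℝ)) with hεdef
  have hε0 : 0 < ε := by positivity
  have hPε : (p : ℝ) * ε = 1 / 48 := by rw [hεdef]; field_simp
  have hε1 : ε ≤ 1 / 48 := by
    rw [hεdef]
    exact one_div_le_one_div_of_le (by norm_num) (by linarith)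
  have hσ : σ = 1 ∨ σ = -1 := by rcases hσγ with h | h <;> simp [h.1]
  have hγ : 0 ≤ γ := by rcases hσγ with h | h <;> rw [h.2] <;> norm_num
  have hγε : γ * ε ≤ 1 / 4 := by
    rcases hσγ with h | h <;> rw [h.2] <;> linarith
  set y := inv A w with hy
  set s := ⟪y, Cop a B y⟫_ℝ with hs
  have hs0 : 0 ≤ s := Cop_nonneg a B y
  set x := X A w with hx
  have hxy : x = ⟪y, A y⟫_ℝ := hA.X_eq w
  have hx0 : 0 ≤ x := hA.X_nonneg w
  have hsx : s ≤ ε * x := by rw [hxy]; exact hC y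
  have hstep := fun ρ : I → Bool => one_step hA a B (vec a B ρ) w σ γ ε (1 / 24) hσ hγ hε0.le
    (by norm_num) hγε (by norm_num) hC
  rcases hx0.eq_or_lt with hx00 | hxpos
  · -- trivial case
    have hle : ∀ ρ : I → Bool, (if (∀ x, ⟪vec a B ρ, x⟫_ℝ ^ 2 ≤ (1 / 24) * ⟪x, A x⟫_ℝ) then
        X (A + σ • (rk (vec a B ρ) - γ • Cop a B)) w ^ p else 0) ≤ 0 := by
      intro ρ
      split_ifs with h
      · obtain ⟨h1, h2⟩ := hstep ρ h
        have h3 := h y
        rw [← hxy, ← hx00] at h3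
        have h4 : ⟪vec a B ρ, y⟫_ℝ ^ 2 = 0 := le_antisymm (by linarith) (by positivity)
        have h5 : s = 0 := le_antisymm (by rw [← hx00] at hsx; linarith) hs0
        rw [← hy, ← hx, ← hs, h4, h5, ← hx00] at h2
        have h6 := h1.X_nonneg w
        have h7 : X (A + σ • (rk (vec a B ρ) - γ • Cop a B)) w = 0 :=
          le_antisymm (by linarith) h6
        rw [h7, zero_pow (by omega)]
      · exact le_rfl
    refine (Finset.expect_le_expect fun ρ _ => hle ρ).trans ?_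
    rw [Finset.expect_const_zero]
    positivity
  · set b : ℝ := (1 - 3 * σ * (1 / 24)) * p / x with hb
    have hb0 : 0 ≤ b := by
      rcases hσ with h | h <;> rw [hb, h] <;> apply div_nonneg _ hx0 <;> nlinarith
    set D : ℝ := (p / x) * (σ * γ + 3 * γ ^ 2 * ε) * s with hD
    have hle : ∀ ρ : I → Bool, (if (∀ x, ⟪vec a B ρ, x⟫_ℝ ^ 2 ≤ (1 / 24) * ⟪x, A x⟫_ℝ) then
        X (A + σ • (rk (vec a B ρ) - γ • Cop a B)) w ^ p else 0) ≤
        x ^ p * Real.exp D * Real.exp (-σ * b * S (fun i => ⟪a i, y⟫_ℝ) B ρ ^ 2) := by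
      intro ρ
      split_ifs with h
      · obtain ⟨h1, h2⟩ := hstep ρ h
        rw [← hy, ← hx, ← hs, inner_vec] at h2
        set q := S (fun i => ⟪a i, y⟫_ℝ) B ρ
        have h6 := h1.X_nonneg w
        set X' := X (A + σ • (rk (vec a B ρ) - γ • Cop a B)) w
        set Y := (-σ * (q ^ 2 - γ * s) + 3 * ((1 / 24) * q ^ 2 + γ ^ 2 * ε * s)) / x with hY
        have h7 : X' ≤ x * (1 + Y) := by
          rw [hY]
          have : x * (1 + (-σ * (q ^ 2 - γ * s) + 3 * ((1 / 24) * q ^ 2 + γ ^ 2 * ε * s)) / x) =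
            x + (-σ * (q ^ 2 - γ * s) + 3 * ((1 / 24) * q ^ 2 + γ ^ 2 * ε * s)) := by
            field_simp
          rw [this]; linarith
        have h8 : X' ≤ x * Real.exp Y := by
          refine h7.trans ?_
          have := Real.add_one_le_exp Y
          gcongr
          linarith
        calc X' ^ p ≤ (x * Real.exp Y) ^ p := by gcongr
          _ = x ^ p * Real.exp (p * Y) := by rw [mul_pow, ← Real.exp_nat_mul]
          _ = x ^ p * Real.exp D * Real.exp (-σ * b * q ^ 2) := by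
            rw [mul_assoc, ← Real.exp_add]
            congr 2
            rw [hY, hD, hb]
            rcases hσ with h | h <;> rw [h] <;> field_simp <;> ring
      · positivity
    refine (Finset.expect_le_expect fun ρ _ => hle ρ).trans ?_
    rw [← Finset.mul_expect]
    have hsum : ∑ i ∈ B, (fun i => ⟪a i, y⟫_ℝ) i ^ 2 = s := by rw [hs, Cop_sq]
    have hm : s / x ≤ ε := by rw [div_le_iff₀ hxpos]; exact hsx
    have hm0 : 0 ≤ s / x := by positivity
    have hPm : (p : ℝ) * (s / x) ≤ 1 / 48 := by rw [← hPε]; gcongr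
    have hPm0 : 0 ≤ (p : ℝ) * (s / x) := by positivity
    have hbs : b * s ≤ 1 / 4 := by
      have : b * s = (1 - 3 * σ * (1 / 24)) * (p * (s / x)) := by rw [hb]; ring
      rw [this]
      rcases hσ with h | h <;> rw [h] <;> linarith
    have hkey := rad_key (fun i => ⟪a i, y⟫_ℝ) B b σ hσ hb0 (by rw [hsum]; exact hbs)
    rw [hsum] at hkey
    refine (mul_le_mul_of_nonneg_left hkey (by positivity)).trans ?_
    rw [mul_assoc, ← Real.exp_add]
    have hfin : D + (-σ * b * s + 4 * b ^ 2 * s ^ 2) ≤ 0 := by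
      set t := (p : ℝ) * (s / x) with ht
      have hbs' : b * s = (1 - 3 * σ * (1 / 24)) * t := by rw [hb, ht]; ring
      have hD' : D = (σ * γ + 3 * γ ^ 2 * ε) * t := by rw [hD, ht]; ring
      have e : D + (-σ * b * s + 4 * b ^ 2 * s ^ 2) = D + (-σ * (b * s) + 4 * (b * s) ^ 2) := by
        ring
      rw [e, hbs', hD']
      rcases hσγ with ⟨h1, h2⟩ | ⟨h1, h2⟩
      · rw [h1, h2]
        nlinarith
      · rw [h1, h2]
        nlinarith
    calc x ^ p * Real.exp (D + (-σ * b * s + 4 * b ^ 2 * s ^ 2)) ≤ x ^ p * 1 := by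
          gcongr
          rw [← Real.exp_zero]
          exact Real.exp_le_exp.2 hfin
      _ = x ^ p := mul_one _

end Pool.Agent.H77.SS
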