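import Pool.Agent.H77.SS.Gauss1
import Pool.Agent.H77.SS.Step

/-!
Gaussian vectors in finite dimensional inner product spaces.
-/

open scoped BigOperators NNReal Nat InnerProductSpace
open MeasureTheory ProbabilityTheory Real

namespace Pool.Agent.H77.SS

section quad

variable {F G : Type*} [NormedAddCommGroup F] [InnerProductSpace ℝ F] [FiniteDimensional ℝ F]
  [MeasurableSpace F] [BorelSpace F]
  [NormedAddCommGroup G] [InnerProductSpace ℝ G] [FiniteDimensional ℝ G]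

/-- Moment generating function of a Gaussian quadratic form. -/
theorem gauss_quad (T : F →ₗ[ℝ] G) (b τ : ℝ) (hb : 0 ≤ b) (hT : ∀ x, b * ‖T x‖ ^ 2 ≤ ‖x‖ ^ 2 / 4)
    (hτ : ∀ f : OrthonormalBasis (Fin (Module.finrank ℝ F)) ℝ F, ∑ j, ‖T (f j)‖ ^ 2 ≤ τ) :
    Integrable (fun g => rexp (b * ‖T g‖ ^ 2)) (stdGaussian F) ∧
    ∫ g, rexp (b * ‖T g‖ ^ 2) ∂(stdGaussian F) ≤ rexp (2 * b * τ) := by
  set Q : F →ₗ[ℝ] F := LinearMap.adjoint T ∘ₗ T with hQdef
  have hQ : ∀ x y, ⟪Q x, y⟫_ℝ = ⟪T x, T y⟫_ℝ := by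
    intro x y
    rw [hQdef, LinearMap.comp_apply, LinearMap.adjoint_inner_left]
  have hQs : Q.IsSymmetric := by
    intro x y
    rw [hQ, real_inner_comm (Q y) x, hQ, real_inner_comm]
  set f := hQs.eigenvectorBasis rfl with hf
  have horth : ∀ i j, i ≠ j → ⟪T (f i), T (f j)⟫_ℝ = 0 := by
    intro i j hij
    rw [← hQ, hf, hQs.apply_eigenvectorBasis, real_inner_smul_left, ← hf]
    rw [f.orthonormal.2 hij, mul_zero]
  have hnorm : ∀ x : Fin (Module.finrank ℝ F) → ℝ, ‖T (∑ i, x i • f i)‖ ^ 2 =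
      ∑ i, ‖T (f i)‖ ^ 2 * x i ^ 2 := by
    intro x
    rw [← real_inner_self_eq_norm_sq, map_sum, sum_inner]
    refine Finset.sum_congr rfl fun i _ => ?_
    rw [inner_sum, Finset.sum_eq_single i]
    · rw [map_smul, real_inner_smul_left, real_inner_smul_right, real_inner_self_eq_norm_sq]
      ring
    · intro j _ hj
      rw [map_smul, map_smul, real_inner_smul_left, real_inner_smul_right, horth i j hj.symm]
      ring
    · intro h; exact absurd (Finset.mem_univ i) h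
  have hexp : ∀ x : Fin (Module.finrank ℝ F) → ℝ, rexp (b * ‖T (∑ i, x i • f i)‖ ^ 2) =
      ∏ i, rexp ((b * ‖T (f i)‖ ^ 2) * x i ^ 2) := by
    intro x
    rw [hnorm, ← Real.exp_sum, Finset.mul_sum]
    congr 1
    exact Finset.sum_congr rfl fun i _ => by ring
  have hμ : ∀ i, b * ‖T (f i)‖ ^ 2 ≤ 1 / 4 := by
    intro i
    have := hT (f i)
    rwa [f.orthonormal.1 i, one_pow] at this
  have hμ0 : ∀ i, 0 ≤ b * ‖T (f i)‖ ^ 2 := fun i => by positivity
  have hint : Integrable (fun x : Fin (Module.finrank ℝ F) → ℝ =>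
      ∏ i, rexp ((b * ‖T (f i)‖ ^ 2) * x i ^ 2)) (Measure.pi fun _ => gaussianReal 0 1) := by
    refine Integrable.fintype_prod (f := fun i y => rexp ((b * ‖T (f i)‖ ^ 2) * y ^ 2)) fun i => ?_
    exact integrable_exp_sq (by have := hμ i; linarith)
  have hmeas : Measurable (fun x : Fin (Module.finrank ℝ F) → ℝ => ∑ i, x i • f i) := by
    fun_prop
  have hcont : Continuous (fun g : F => rexp (b * ‖T g‖ ^ 2)) := by
    have : Continuous T := T.continuous_of_finiteDimensional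
    fun_prop
  rw [stdGaussian_eq_map_pi_orthonormalBasis f]
  constructor
  · rw [integrable_map_measure hcont.aestronglyMeasurable hmeas.aemeasurable]
    refine hint.congr (ae_of_all _ fun x => ?_)
    exact (hexp x).symm
  · rw [integral_map hmeas.aemeasurable hcont.aestronglyMeasurable]
    simp_rw [hexp]
    rw [integral_fintype_prod_eq_prod (f := fun i y => rexp ((b * ‖T (f i)‖ ^ 2) * y ^ 2))]
    calc ∏ i, ∫ y, rexp ((b * ‖T (f i)‖ ^ 2) * y ^ 2) ∂(gaussianReal 0 1)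
        ≤ ∏ i, rexp (2 * (b * ‖T (f i)‖ ^ 2)) := by
          refine Finset.prod_le_prod (fun i _ => integral_nonneg fun _ => (exp_pos _).le)
            fun i _ => integral_exp_sq_le (hμ0 i) (hμ i)
      _ = rexp (2 * b * ∑ i, ‖T (f i)‖ ^ 2) := by
          rw [← Real.exp_sum, Finset.mul_sum]
          congr 1
          exact Finset.sum_congr rfl fun i _ => by ring
      _ ≤ rexp (2 * b * τ) := by
          apply Real.exp_le_exp.2
          have := hτ f
          gcongr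

omit [FiniteDimensional ℝ G] in
lemma law_inner (v : F) : (stdGaussian F).map (fun h => ⟪v, h⟫_ℝ) =
    gaussianReal 0 (‖v‖ ^ 2).toNNReal := by
  have h := IsGaussian.map_eq_gaussianReal (μ := stdGaussian F) (innerSL ℝ v)
  rw [integral_strongDual_stdGaussian, variance_dual_stdGaussian, innerSL_apply_norm] at h
  exact h

lemma mgf_inner (v : F) : Integrable (fun h => rexp ⟪v, h⟫_ℝ) (stdGaussian F) ∧
    ∫ h, rexp ⟪v, h⟫_ℝ ∂(stdGaussian F) = rexp (‖v‖ ^ 2 / 2) := by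
  have hlaw := law_inner v
  constructor
  · have h1 := integrable_exp_mul_gaussianReal (μ := 0) (v := (‖v‖ ^ 2).toNNReal) 1
    rw [← hlaw, integrable_map_measure (by fun_prop) (by fun_prop)] at h1
    refine h1.congr (ae_of_all _ fun x => ?_)
    simp
  · have h2 := mgf_gaussianReal hlaw 1
    unfold mgf at h2
    simp only [one_mul, one_pow, mul_one, zero_add] at h2
    rw [h2, Real.coe_toNNReal _ (by positivity)]

lemma moment_inner (v : F) (p : ℕ) : Integrable (fun h => ⟪v, h⟫_ℝ ^ (2 * p)) (stdGaussian F) ∧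
    (p ! : ℝ) * (‖v‖ ^ 2) ^ p ≤ ∫ h, ⟪v, h⟫_ℝ ^ (2 * p) ∂(stdGaussian F) := by
  have hlaw := law_inner v
  have h2 : gaussianReal 0 (‖v‖ ^ 2).toNNReal = (gaussianReal 0 1).map (‖v‖ * ·) := by
    rw [gaussianReal_map_const_mul, mul_zero, mul_one]
    congr 1
    ext
    rw [Real.coe_toNNReal _ (by positivity)]
    rfl
  rw [h2] at hlaw
  have hI : Integrable (fun x : ℝ => x ^ (2 * p)) ((stdGaussian F).map (fun h => ⟪v, h⟫_ℝ)) := by
    rw [hlaw, integrable_map_measure (by fun_prop) (by fun_prop)]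
    have := (integrable_pow_even p).const_mul (‖v‖ ^ (2 * p))
    refine this.congr (ae_of_all _ fun x => ?_)
    simp [mul_pow]
  constructor
  · rw [integrable_map_measure (by fun_prop) (by fun_prop)] at hI
    exact hI
  · have e1 : ∫ h, ⟪v, h⟫_ℝ ^ (2 * p) ∂(stdGaussian F) =
        ∫ x, x ^ (2 * p) ∂((stdGaussian F).map (fun h => ⟪v, h⟫_ℝ)) := by
      rw [integral_map (by fun_prop) (by fun_prop)]
    rw [e1, hlaw, integral_map (by fun_prop) (by fun_prop)]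
    simp_rw [mul_pow]
    rw [integral_const_mul, mul_comm, pow_mul]
    gcongr
    exact factorial_le_moment p

end quad

section ops

variable {E : Type*} [NormedAddCommGroup E] [InnerProductSpace ℝ E]
variable {I : Type*} [Fintype I] [DecidableEq I]

/-- The operator `g ↦ ∑ i ∈ B, g i • a i`. -/
noncomputable def Tg (a : I → E) (B : Finset I) : EuclideanSpace ℝ I →ₗ[ℝ] E where
  toFun g := ∑ i ∈ B, g i • a i
  map_add' x y := by simp [add_smul, Finset.sum_add_distrib]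
  map_smul' c x := by simp [mul_smul, Finset.smul_sum]

/-- The adjoint of `Tg`. -/
noncomputable def Ts (a : I → E) (B : Finset I) : E →ₗ[ℝ] EuclideanSpace ℝ I where
  toFun h := WithLp.toLp 2 (fun i => if i ∈ B then ⟪a i, h⟫_ℝ else 0)
  map_add' x y := by
    ext i
    by_cases hi : i ∈ B <;> simp [hi, inner_add_right]
  map_smul' c x := by
    ext i
    by_cases hi : i ∈ B <;> simp [hi, real_inner_smul_right]

omit [DecidableEq I] [Fintype I] in
lemma Tg_apply (a : I → E) (B : Finset I) (g : EuclideanSpace ℝ I) :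
    Tg a B g = ∑ i ∈ B, g i • a i := rfl

lemma Ts_norm (a : I → E) (B : Finset I) (h : E) :
    ‖Ts a B h‖ ^ 2 = ∑ i ∈ B, ⟪a i, h⟫_ℝ ^ 2 := by
  rw [EuclideanSpace.real_norm_sq_eq]
  simp [Ts, ite_pow, Finset.sum_ite_mem]

lemma Tg_inner (a : I → E) (B : Finset I) (g : EuclideanSpace ℝ I) (h : E) :
    ⟪Tg a B g, h⟫_ℝ = ⟪Ts a B h, g⟫_ℝ := by
  rw [Tg_apply, sum_inner, PiLp.inner_apply]
  simp [Ts, real_inner_smul_left, Finset.sum_ite_mem, mul_ite]

variable [FiniteDimensional ℝ E]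

omit [FiniteDimensional ℝ E] in
lemma Ts_trace (a : I → E) (B : Finset I) {n : ℕ} (f : OrthonormalBasis (Fin n) ℝ E) :
    ∑ j, ‖Ts a B (f j)‖ ^ 2 = ∑ i ∈ B, ‖a i‖ ^ 2 := by
  simp_rw [Ts_norm]
  rw [Finset.sum_comm]
  exact Finset.sum_congr rfl fun i _ => f.sum_sq_inner_left (a i)

lemma Tg_trace (a : I → E) (B : Finset I) {n : ℕ}
    (f : OrthonormalBasis (Fin n) ℝ (EuclideanSpace ℝ I)) :
    ∑ j, ‖Tg a B (f j)‖ ^ 2 = ∑ i ∈ B, ‖a i‖ ^ 2 := by
  set e := stdOrthonormalBasis ℝ E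
  have h1 : ∀ j, ‖Tg a B (f j)‖ ^ 2 = ∑ m, ⟪Ts a B (e m), f j⟫_ℝ ^ 2 := by
    intro j
    rw [← e.sum_sq_inner_left (Tg a B (f j))]
    exact Finset.sum_congr rfl fun m _ => by rw [Tg_inner]
  simp_rw [h1]
  rw [Finset.sum_comm, ← Ts_trace a B e]
  exact Finset.sum_congr rfl fun m _ => f.sum_sq_inner_left _

omit [FiniteDimensional ℝ E] in
lemma Tg_norm_le (a : I → E) (B : Finset I) (z : ℝ) (hz : 0 ≤ z)
    (hC : ∀ x : E, z * ∑ i ∈ B, ⟪a i, x⟫_ℝ ^ 2 ≤ ‖x‖ ^ 2) (g : EuclideanSpace ℝ I) :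
    z * ‖Tg a B g‖ ^ 2 ≤ ‖g‖ ^ 2 := by
  by_cases h0 : Tg a B g = 0
  · rw [h0, norm_zero]; simp
  · have hpos : 0 < ‖Tg a B g‖ := norm_pos_iff.2 h0
    have h1 : ‖Tg a B g‖ ^ 2 ≤ ‖Ts a B (Tg a B g)‖ * ‖g‖ := by
      rw [← real_inner_self_eq_norm_sq, Tg_inner]
      exact real_inner_le_norm _ _
    have h2 := hC (Tg a B g)
    rw [← Ts_norm] at h2
    have h3 : (‖Tg a B g‖ ^ 2) ^ 2 ≤ ‖Ts a B (Tg a B g)‖ ^ 2 * ‖g‖ ^ 2 := by
      rw [← mul_pow]
      gcongr
    have h4 : (z * ‖Tg a B g‖ ^ 2) * ‖Tg a B g‖ ^ 2 ≤ ‖g‖ ^ 2 * ‖Tg a B g‖ ^ 2 := by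
      calc (z * ‖Tg a B g‖ ^ 2) * ‖Tg a B g‖ ^ 2 = z * (‖Tg a B g‖ ^ 2) ^ 2 := by ring
        _ ≤ z * (‖Ts a B (Tg a B g)‖ ^ 2 * ‖g‖ ^ 2) := by gcongr
        _ = (z * ‖Ts a B (Tg a B g)‖ ^ 2) * ‖g‖ ^ 2 := by ring
        _ ≤ ‖Tg a B g‖ ^ 2 * ‖g‖ ^ 2 := by gcongr
        _ = _ := by ring
    exact le_of_mul_le_mul_right h4 (by positivity)

end ops

end Pool.Agent.H77.SS
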