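import Pool.Agent.H77.SS.Final

/-!
Choice of the parameters.
-/

open scoped BigOperators InnerProductSpace Matrix
open Real

namespace Pool.Agent.H77.SS

open Classical in
lemma prob_eq {n ζ b : ℕ} (hb : 1 ≤ b) (P : Sample n ζ b → Prop) :
    prob P = 1 - 𝔼 ω : Sample n ζ b, (if ¬ P ω then (1 : ℝ) else 0) := by
  have : Nonempty (Fin b) := ⟨⟨0, hb⟩⟩
  have h1 : prob P = 𝔼 ω : Sample n ζ b, (if P ω then (1 : ℝ) else 0) := by
    unfold prob
    rw [Nat.card_eq_fintype_card, Nat.card_eq_fintype_card, Fintype.card_subtype,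
      Fintype.expect_eq_sum_div_card, Finset.sum_boole]
  have h2 : 𝔼 ω : Sample n ζ b, (if P ω then (1 : ℝ) else 0) +
      𝔼 ω : Sample n ζ b, (if ¬ P ω then (1 : ℝ) else 0) = 1 := by
    rw [← Finset.expect_add_distrib]
    have : ∀ ω : Sample n ζ b, (if P ω then (1 : ℝ) else 0) + (if ¬ P ω then (1 : ℝ) else 0) = 1 := by
      intro ω
      by_cases h : P ω <;> simp [h]
    simp_rw [this]
    exact Fintype.expect_const _
  rw [h1]; linarith

/-- Numerical estimate. -/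
lemma numeric (r : ℕ) (hr : 2 ≤ r) :
    let L := Nat.log 2 r + 1
    let p := 20 * L
    let ζ := 18432 * p
    let b := 2 * r / p + 1
    1 ≤ p ∧ (ζ : ℝ) ≤ 1105920 * Real.log r ∧ ((b * ζ : ℕ) : ℝ) ≤ 405504 * r ∧
    ((ζ * b : ℕ) : ℝ) * rexp (-(2 * p) + (rexp 1 - 1) * r / b) + 2 * (ζ * b : ℕ) *
        ((384 * p / ζ) ^ p * rexp ((2 * p) / 2) + (192 * p / ζ) ^ p * rexp ((2 * p) / 2)) ≤
      1 / 10 := by
  intro L p ζ b
  have hL1 : 2 ≤ L := by
    have : 1 ≤ Nat.log 2 r := Nat.log_pos (by norm_num) hr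
    omega
  have hLr : L ≤ r := by
    have := Nat.log_lt_self 2 (show r ≠ 0 by omega)
    omega
  have hrL : r < 2 ^ L := Nat.lt_pow_succ_log_self (by norm_num) r
  have hL2 : 2 ^ (L - 1) ≤ r := Nat.pow_log_le_self 2 (by omega)
  have hp1 : 1 ≤ p := by omega
  have hp0 : 0 < p := by omega
  have hpR : (1 : ℝ) ≤ p := by exact_mod_cast hp1
  have hrR : (2 : ℝ) ≤ r := by exact_mod_cast hr
  have hζp : (ζ : ℝ) = 18432 * p := by simp [ζ]
  have hlog : (L : ℝ) ≤ 3 * Real.log r := by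
    have h1 : ((L - 1 : ℕ) : ℝ) * Real.log 2 ≤ Real.log r := by
      rw [← Real.log_pow]
      apply Real.log_le_log (by positivity)
      exact_mod_cast hL2
    have h2 : ((L - 1 : ℕ) : ℝ) = (L : ℝ) - 1 := by
      rw [Nat.cast_sub (by omega)]; simp
    rw [h2] at h1
    have h3 : (2 : ℝ) ≤ L := by exact_mod_cast hL1
    have h4 := Real.log_two_gt_d9
    nlinarith
  have hpL : (p : ℝ) = 20 * L := by simp [p]
  refine ⟨hp1, ?_, ?_, ?_⟩
  · rw [hζp, hpL]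
    linarith
  · have hdiv : (2 * r / p) * p ≤ 2 * r := Nat.div_mul_le_self _ _
    have h1 : b * ζ ≤ 405504 * r := by
      have e : b * ζ = 18432 * ((2 * r / p) * p) + 18432 * p := by simp only [b, ζ]; ring
      rw [e]
      have : p ≤ 20 * r := by simp only [p]; omega
      omega
    exact_mod_cast h1
  · have hb0 : (0 : ℝ) < b := by
      have : 0 < b := Nat.succ_pos _
      exact_mod_cast this
    have hbp : 2 * (r : ℝ) ≤ p * b := by
      have h := Nat.lt_mul_div_succ (2 * r) hp0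
      have : 2 * r ≤ p * b := h.le
      exact_mod_cast this
    have hkr : ((ζ * b : ℕ) : ℝ) ≤ 405504 * r := by
      have hdiv : (2 * r / p) * p ≤ 2 * r := Nat.div_mul_le_self _ _
      have h1 : ζ * b ≤ 405504 * r := by
        have e : ζ * b = 18432 * ((2 * r / p) * p) + 18432 * p := by simp only [b, ζ]; ring
        rw [e]
        have : p ≤ 20 * r := by simp only [p]; omega
        omega
      exact_mod_cast h1
    have he3 : rexp 1 ≤ 3 := by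
      have := Real.exp_one_lt_d9
      linarith
    have he2 : 2 ≤ rexp 1 := by
      have := Real.add_one_le_exp (1 : ℝ); linarith
    have hx1 : rexp (-(2 * p) + (rexp 1 - 1) * r / b) ≤ (1 / 2) ^ p := by
      have h1 : (rexp 1 - 1) * r / b ≤ p := by
        rw [div_le_iff₀ hb0]
        nlinarith
      calc rexp (-(2 * p) + (rexp 1 - 1) * r / b) ≤ rexp (-(p : ℝ)) := by
            apply Real.exp_le_exp.2; linarith
        _ = (rexp (-1)) ^ p := by rw [← Real.exp_nat_mul]; congr 1; ring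
        _ ≤ (1 / 2) ^ p := by
            gcongr
            rw [Real.exp_neg, one_div]
            exact inv_anti₀ (by norm_num) he2
    have hp2 : rexp ((2 * p) / 2) = (rexp 1) ^ p := by
      rw [← Real.exp_nat_mul]; congr 1; ring
    have hx2 : (384 * (p : ℝ) / ζ) ^ p * rexp ((2 * p) / 2) ≤ (1 / 2) ^ p := by
      rw [hp2, ← mul_pow, hζp]
      gcongr
      have : 384 * (p : ℝ) / (18432 * p) = 1 / 48 := by field_simp; norm_num
      rw [this]; linarith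
    have hx3 : (192 * (p : ℝ) / ζ) ^ p * rexp ((2 * p) / 2) ≤ (1 / 2) ^ p := by
      rw [hp2, ← mul_pow, hζp]
      gcongr
      have : 192 * (p : ℝ) / (18432 * p) = 1 / 96 := by field_simp; norm_num
      rw [this]; linarith
    have hk0 : (0 : ℝ) ≤ ((ζ * b : ℕ) : ℝ) := by positivity
    calc ((ζ * b : ℕ) : ℝ) * rexp (-(2 * p) + (rexp 1 - 1) * r / b) + 2 * (ζ * b : ℕ) *
        ((384 * p / ζ) ^ p * rexp ((2 * p) / 2) + (192 * p / ζ) ^ p * rexp ((2 * p) / 2))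
        ≤ ((ζ * b : ℕ) : ℝ) * (1 / 2) ^ p + 2 * (ζ * b : ℕ) * ((1 / 2) ^ p + (1 / 2) ^ p) := by
          gcongr
      _ = 5 * ((ζ * b : ℕ) : ℝ) * (1 / 2) ^ p := by ring
      _ ≤ 5 * (405504 * r) * (1 / 2) ^ p := by gcongr
      _ ≤ 5 * (405504 * 2 ^ L) * (1 / 2) ^ p := by
          gcongr
          exact_mod_cast hrL.le
      _ = 2027520 * (1 / 2) ^ (19 * L) := by
          have : p = 19 * L + L := by simp only [p]; ring
          rw [this, pow_add]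
          have h2 : (2 : ℝ) ^ L * (1 / 2) ^ L = 1 := by rw [← mul_pow]; norm_num
          linear_combination 2027520 * (1 / 2 : ℝ) ^ (19 * L) * h2
      _ ≤ 2027520 * (1 / 2) ^ 38 := by
          have : (1 / 2 : ℝ) ^ (19 * L) ≤ (1 / 2) ^ 38 :=
            pow_le_pow_of_le_one (by norm_num) (by norm_num) (by omega)
          gcongr
      _ ≤ 1 / 10 := by norm_num

theorem ose_of {n ζ b r p : ℕ} (hζ0 : 0 < ζ) (hb1 : 1 ≤ b) (hp : 1 ≤ p)
    (h3 : ((ζ * b : ℕ) : ℝ) * rexp (-(2 * p) + (rexp 1 - 1) * r / b) + 2 * (ζ * b : ℕ) *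
        ((384 * p / ζ) ^ p * rexp ((2 * p) / 2) + (192 * p / ζ) ^ p * rexp ((2 * p) / 2)) ≤
      1 / 10) : IsOSE n ζ b r (1 / 2) (3 / 2) := by
  classical
  intro V hV
  rw [prob_eq hb1]
  have h4 := total_fail (n := n) V hζ0 hb1 p hp (2 * p)
  rw [hV] at h4
  have h5 := h4.trans h3
  have h6 : 𝔼 ω : Sample n ζ b, (if ¬ (∀ x ∈ V,
      1 / 2 * ‖x‖ ≤ ‖WithLp.toLp 2 ((sparseStack ω)ᵀ *ᵥ x.ofLp)‖ ∧
      ‖WithLp.toLp 2 ((sparseStack ω)ᵀ *ᵥ x.ofLp)‖ ≤ 3 / 2 * ‖x‖) then (1 : ℝ) else 0) ≤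
      𝔼 ω : Sample n ζ b, (if ¬ (∀ x : V,
      1 / 4 * ‖x‖ ^ 2 ≤ ∑ c, ⟪vec (aa V ζ) (bucket ω.2 c) ω.1, x⟫_ℝ ^ 2 ∧
      ∑ c, ⟪vec (aa V ζ) (bucket ω.2 c) ω.1, x⟫_ℝ ^ 2 ≤ 2 * ‖x‖ ^ 2) then (1 : ℝ) else 0) := by
    refine Finset.expect_le_expect fun ω _ => ?_
    by_cases hω : ∀ x : V,
        1 / 4 * ‖x‖ ^ 2 ≤ ∑ c, ⟪vec (aa V ζ) (bucket ω.2 c) ω.1, x⟫_ℝ ^ 2 ∧
        ∑ c, ⟪vec (aa V ζ) (bucket ω.2 c) ω.1, x⟫_ℝ ^ 2 ≤ 2 * ‖x‖ ^ 2
    · have hgood : ∀ x ∈ V,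
          1 / 2 * ‖x‖ ≤ ‖WithLp.toLp 2 ((sparseStack ω)ᵀ *ᵥ x.ofLp)‖ ∧
          ‖WithLp.toLp 2 ((sparseStack ω)ᵀ *ᵥ x.ofLp)‖ ≤ 3 / 2 * ‖x‖ := by
        intro x hx
        obtain ⟨g1, g2⟩ := hω ⟨x, hx⟩
        rw [← stack_norm] at g1 g2
        have e : ‖(⟨x, hx⟩ : V)‖ = ‖x‖ := rfl
        rw [e] at g1 g2
        have n1 := norm_nonneg x
        have n2 := norm_nonneg (WithLp.toLp 2 ((sparseStack ω)ᵀ *ᵥ x.ofLp))
        constructor
        · refine (sq_le_sq₀ (by positivity) n2).1 ?_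
          linarith
        · refine (sq_le_sq₀ n2 (by positivity)).1 ?_
          nlinarith
      rw [if_neg (not_not.2 hgood)]
      positivity
    · rw [if_pos hω]
      split_ifs <;> norm_num
  have h7 := h6.trans h5
  linarith

theorem main : ∃ C α β : ℝ, 0 < α ∧ α ≤ β ∧ ∀ r n : ℕ, 2 ≤ r → r ≤ n →
    ∃ ζ b : ℕ, 1 ≤ ζ ∧ 1 ≤ b ∧ (ζ : ℝ) ≤ C * Real.log r ∧ ((b * ζ : ℕ) : ℝ) ≤ C * r ∧
      IsOSE n ζ b r α β := by
  refine ⟨1105920, 1 / 2, 3 / 2, by norm_num, by norm_num, fun r n hr _ => ?_⟩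
  obtain ⟨hp, h1, h2, h3⟩ := numeric r hr
  refine ⟨18432 * (20 * (Nat.log 2 r + 1)), 2 * r / (20 * (Nat.log 2 r + 1)) + 1, by omega,
    Nat.succ_pos _, h1, h2.trans ?_, ?_⟩
  · have : (0 : ℝ) ≤ r := by positivity
    linarith
  · exact ose_of (by omega) (Nat.succ_pos _) hp h3

end Pool.Agent.H77.SS
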