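import Pool.Agent.H77.SS.Gauss2

/-!
Moments of the test vectors, and the Gaussian test for the comparison of two quadratic forms.
-/

open scoped BigOperators NNReal Nat InnerProductSpace
open MeasureTheory ProbabilityTheory Real

namespace Pool.Agent.H77.SS

variable {E : Type*} [NormedAddCommGroup E] [InnerProductSpace ℝ E] [FiniteDimensional ℝ E]
variable {I : Type*} [Fintype I] [DecidableEq I]

lemma pow_le_exp (y b : ℝ) (hy : 0 ≤ y) (hb : 0 < b) (p : ℕ) :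
    y ^ p ≤ (p ! : ℝ) * (1 / b) ^ p * rexp (b * y) := by
  have h2 := Real.pow_div_factorial_le_exp (b * y) (by positivity) p
  rw [div_le_iff₀ (by positivity)] at h2
  calc y ^ p = (1 / b) ^ p * (b * y) ^ p := by rw [← mul_pow]; congr 1; field_simp
    _ ≤ (1 / b) ^ p * (rexp (b * y) * p !) := by gcongr
    _ = _ := by ring

lemma Tg_moment (a : I → E) (B : Finset I) (z τ : ℝ) (hz : 0 < z)
    (hC : ∀ x : E, z * ∑ i ∈ B, ⟪a i, x⟫_ℝ ^ 2 ≤ ‖x‖ ^ 2) (hτ : ∑ i ∈ B, ‖a i‖ ^ 2 ≤ τ) (p : ℕ) :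
    Integrable (fun g => (‖Tg a B g‖ ^ 2) ^ p) (stdGaussian (EuclideanSpace ℝ I)) ∧
    ∫ g, (‖Tg a B g‖ ^ 2) ^ p ∂(stdGaussian (EuclideanSpace ℝ I)) ≤
      (p ! : ℝ) * (4 / z) ^ p * rexp (z * τ / 2) := by
  have hb : 0 < z / 4 := by positivity
  obtain ⟨h1, h2⟩ := gauss_quad (Tg a B) (z / 4) τ hb.le (fun x => by
    have := Tg_norm_le a B z hz.le hC x
    linarith) (fun f => (Tg_trace a B f).le.trans hτ)
  have hbd : ∀ g, (‖Tg a B g‖ ^ 2) ^ p ≤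
      (p ! : ℝ) * (4 / z) ^ p * rexp (z / 4 * ‖Tg a B g‖ ^ 2) := by
    intro g
    have := pow_le_exp (‖Tg a B g‖ ^ 2) (z / 4) (by positivity) hb p
    rwa [one_div_div] at this
  have hcont : Continuous (Tg a B) := (Tg a B).continuous_of_finiteDimensional
  have hint : Integrable (fun g => (‖Tg a B g‖ ^ 2) ^ p) (stdGaussian (EuclideanSpace ℝ I)) := by
    refine (h1.const_mul ((p ! : ℝ) * (4 / z) ^ p)).mono' (by fun_prop) (ae_of_all _ fun g => ?_)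
    rw [Real.norm_of_nonneg (by positivity)]
    exact hbd g
  refine ⟨hint, (integral_mono hint (h1.const_mul _) hbd).trans ?_⟩
  rw [integral_const_mul]
  have e : 2 * (z / 4) * τ = z * τ / 2 := by ring
  rw [e] at h2
  gcongr

omit [FiniteDimensional ℝ E] in
lemma rad_mgf (c : I → ℝ) (B : Finset I) :
    𝔼 ρ : I → Bool, rexp (S c B ρ) ≤ rexp ((∑ i ∈ B, c i ^ 2) / 2) := by
  induction B using Finset.induction_on with
  | empty => simp [S]
  | insert i B hi ih =>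
    rw [expect_flip i, Finset.sum_insert hi]
    have h1 : ∀ ρ : I → Bool, (rexp (S c (insert i B) ρ) +
        rexp (S c (insert i B) (Function.update ρ i (!ρ i)))) / 2 ≤
        rexp (c i ^ 2 / 2) * rexp (S c B ρ) := by
      intro ρ
      rw [S_insert c B ρ hi, S_insert c B _ hi, S_update c B ρ hi, Function.update_self, sg_not,
        Real.exp_add, Real.exp_add]
      have e3 : (rexp (sg (ρ i) * c i) * rexp (S c B ρ) +
          rexp (-sg (ρ i) * c i) * rexp (S c B ρ)) / 2 =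
          Real.cosh (sg (ρ i) * c i) * rexp (S c B ρ) := by
        rw [Real.cosh_eq, neg_mul]; ring
      rw [e3]
      gcongr
      refine (Real.cosh_le_exp_half_sq _).trans (le_of_eq ?_)
      rw [mul_pow, sg_sq, one_mul]
    refine (Finset.expect_le_expect fun ρ _ => h1 ρ).trans ?_
    rw [← Finset.mul_expect]
    refine (mul_le_mul_of_nonneg_left ih (exp_pos _).le).trans (le_of_eq ?_)
    rw [← Real.exp_add]
    congr 1; ring

lemma vec_moment (a : I → E) (B : Finset I) (z τ : ℝ) (hz : 0 < z)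
    (hC : ∀ x : E, z * ∑ i ∈ B, ⟪a i, x⟫_ℝ ^ 2 ≤ ‖x‖ ^ 2) (hτ : ∑ i ∈ B, ‖a i‖ ^ 2 ≤ τ) (p : ℕ) :
    𝔼 ρ : I → Bool, (‖vec a B ρ‖ ^ 2) ^ p ≤ (p ! : ℝ) * (4 / z) ^ p * rexp (z * τ / 2) := by
  let _ : MeasurableSpace E := borel E
  have : BorelSpace E := ⟨rfl⟩
  have hb : 0 < z / 4 := by positivity
  obtain ⟨h1, h2⟩ := gauss_quad (Ts a B) (z / 4) τ hb.le (fun x => by
    have := hC x
    rw [← Ts_norm] at this
    linarith) (fun f => (Ts_trace a B f).le.trans hτ)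
  have e : 2 * (z / 4) * τ = z * τ / 2 := by ring
  rw [e] at h2
  have hmgf : ∀ v : E, rexp (z / 4 * ‖v‖ ^ 2) =
      ∫ h, rexp ⟪√(z / 2) • v, h⟫_ℝ ∂(stdGaussian E) := by
    intro v
    rw [(mgf_inner _).2, norm_smul, mul_pow, Real.norm_of_nonneg (by positivity),
      Real.sq_sqrt (by positivity)]
    congr 1; ring
  have hmain : 𝔼 ρ : I → Bool, rexp (z / 4 * ‖vec a B ρ‖ ^ 2) ≤ rexp (z * τ / 2) := by
    simp_rw [hmgf]
    have hsw : 𝔼 ρ : I → Bool, ∫ h, rexp ⟪√(z / 2) • vec a B ρ, h⟫_ℝ ∂(stdGaussian E) =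
        ∫ h, (𝔼 ρ : I → Bool, rexp ⟪√(z / 2) • vec a B ρ, h⟫_ℝ) ∂(stdGaussian E) := by
      simp_rw [Fintype.expect_eq_sum_div_card]
      rw [integral_div, integral_finsetSum]
      intro ρ _
      exact (mgf_inner _).1
    rw [hsw]
    refine (integral_mono ?_ h1 ?_).trans h2
    · simp_rw [Fintype.expect_eq_sum_div_card]
      exact (integrable_finsetSum _ fun ρ _ => (mgf_inner _).1).div_const _
    · intro h
      simp only
      have h3 : ∀ ρ : I → Bool, ⟪√(z / 2) • vec a B ρ, h⟫_ℝ =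
          S (fun i => √(z / 2) * ⟪a i, h⟫_ℝ) B ρ := by
        intro ρ
        rw [real_inner_smul_left, inner_vec]
        unfold S
        rw [Finset.mul_sum]
        exact Finset.sum_congr rfl fun i _ => by ring
      simp_rw [h3]
      refine (rad_mgf _ B).trans (le_of_eq ?_)
      rw [Ts_norm]
      simp_rw [mul_pow, Real.sq_sqrt (show 0 ≤ z / 2 by positivity)]
      rw [← Finset.mul_sum]
      congr 1; ring
  calc 𝔼 ρ : I → Bool, (‖vec a B ρ‖ ^ 2) ^ p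
      ≤ 𝔼 ρ : I → Bool, (p ! : ℝ) * (4 / z) ^ p * rexp (z / 4 * ‖vec a B ρ‖ ^ 2) := by
        refine Finset.expect_le_expect fun ρ _ => ?_
        have := pow_le_exp (‖vec a B ρ‖ ^ 2) (z / 4) (by positivity) hb p
        rwa [one_div_div] at this
    _ = (p ! : ℝ) * (4 / z) ^ p * 𝔼 ρ : I → Bool, rexp (z / 4 * ‖vec a B ρ‖ ^ 2) := by
        rw [← Finset.mul_expect]
    _ ≤ _ := by gcongr

/-- `X A w ≤ M ‖w‖²`. -/
lemma X_le (A : E →ₗ[ℝ] E) : ∃ M : ℝ, 0 ≤ M ∧ ∀ w, X A w ≤ M * ‖w‖ ^ 2 := by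
  refine ⟨‖LinearMap.toContinuousLinearMap (inv A)‖, norm_nonneg _, fun w => ?_⟩
  unfold X
  calc ⟪w, inv A w⟫_ℝ ≤ ‖w‖ * ‖inv A w‖ := real_inner_le_norm _ _
    _ ≤ ‖w‖ * (‖LinearMap.toContinuousLinearMap (inv A)‖ * ‖w‖) := by
      gcongr
      exact (LinearMap.toContinuousLinearMap (inv A)).le_opNorm w
    _ = _ := by ring

lemma X_continuous (A : E →ₗ[ℝ] E) : Continuous (X A) := by
  unfold X
  have : Continuous (inv A) := (inv A).continuous_of_finiteDimensional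
  fun_prop

lemma X_Tg_integrable {A : E →ₗ[ℝ] E} (hA : PD A) (a : I → E) (B : Finset I) (z : ℝ) (hz : 0 < z)
    (hC : ∀ x : E, z * ∑ i ∈ B, ⟪a i, x⟫_ℝ ^ 2 ≤ ‖x‖ ^ 2) (p : ℕ) :
    Integrable (fun g => X A (Tg a B g) ^ p) (stdGaussian (EuclideanSpace ℝ I)) := by
  obtain ⟨M, hM, hX⟩ := X_le A
  have h := (Tg_moment a B z _ hz hC le_rfl p).1
  have hcont : Continuous (Tg a B) := (Tg a B).continuous_of_finiteDimensional
  have hcX := X_continuous A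
  refine (h.const_mul (M ^ p)).mono' (by fun_prop) (ae_of_all _ fun g => ?_)
  have h0 := hA.X_nonneg (Tg a B g)
  rw [Real.norm_of_nonneg (by positivity), ← mul_pow]
  gcongr
  exact hX _

lemma b1_moment {A : E →ₗ[ℝ] E} (hA : PD A) (a : I → E) (B : Finset I) (z : ℝ) (hz : 0 < z)
    (hC : ∀ x : E, z * ∑ i ∈ B, ⟪a i, x⟫_ℝ ^ 2 ≤ ‖x‖ ^ 2) (p : ℕ) (ε : ℝ) (hε : 0 ≤ ε) (x : E)
    (hx : ε * ⟪x, A x⟫_ℝ < ⟪x, Cop a B x⟫_ℝ) :
    (p ! : ℝ) * ε ^ p ≤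
      ∫ g, X A (Tg a B g) ^ p ∂(stdGaussian (EuclideanSpace ℝ I)) := by
  have hx0 : x ≠ 0 := by rintro rfl; simp at hx
  have hAx := hA.pos x hx0
  obtain ⟨h1, h2⟩ := moment_inner (Ts a B x) p
  have h3 : ∀ g, ⟪Ts a B x, g⟫_ℝ ^ (2 * p) ≤ ⟪x, A x⟫_ℝ ^ p * X A (Tg a B g) ^ p := by
    intro g
    rw [← Tg_inner, pow_mul, ← mul_pow, mul_comm ⟪x, A x⟫_ℝ]
    gcongr
    exact hA.cs_X _ _
  have hint := X_Tg_integrable hA a B z hz hC p
  have h4 := integral_mono h1 (hint.const_mul _) h3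
  rw [integral_const_mul] at h4
  have h5 : (p ! : ℝ) * (ε * ⟪x, A x⟫_ℝ) ^ p ≤ (p ! : ℝ) * (‖Ts a B x‖ ^ 2) ^ p := by
    rw [Ts_norm, ← Cop_sq]
    gcongr
  have h6 : (⟪x, A x⟫_ℝ ^ p) * ((p ! : ℝ) * ε ^ p) ≤ ⟪x, A x⟫_ℝ ^ p *
      ∫ g, X A (Tg a B g) ^ p ∂(stdGaussian (EuclideanSpace ℝ I)) := by
    calc (⟪x, A x⟫_ℝ ^ p) * ((p ! : ℝ) * ε ^ p) = (p ! : ℝ) * (ε * ⟪x, A x⟫_ℝ) ^ p := by ring
      _ ≤ _ := h5.trans (h2.trans h4)
  exact le_of_mul_le_mul_left h6 (by positivity)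

end Pool.Agent.H77.SS
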