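import Pool.Agent.H77.SS.Moments

/-!
The barrier process over the rows, and its survival probability.
-/

open scoped BigOperators NNReal Nat InnerProductSpace
open MeasureTheory ProbabilityTheory Real

namespace Pool.Agent.H77.SS

section mixing

variable {I : Type*} [Fintype I] [DecidableEq I]

/-- Use the signs `ρ'` on `B` and `ρ` off `B`. -/
def mix (B : Finset I) (ρ ρ' : I → Bool) : I → Bool := fun i => if i ∈ B then ρ' i else ρ i

omit [Fintype I] in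
lemma mix_mix (B : Finset I) (ρ ρ' : I → Bool) : mix B (mix B ρ ρ') (mix B ρ' ρ) = ρ := by
  ext i
  by_cases h : i ∈ B <;> simp [mix, h]

/-- The exchange of the signs on `B`. -/
def mixPerm (B : Finset I) : ((I → Bool) × (I → Bool)) ≃ ((I → Bool) × (I → Bool)) :=
  Function.Involutive.toPerm (fun x => (mix B x.1 x.2, mix B x.2 x.1)) (by
    intro x
    simp [mix_mix])

lemma expect_mix (B : Finset I) (f : (I → Bool) → ℝ) :
    𝔼 ρ, f ρ = 𝔼 ρ, 𝔼 ρ', f (mix B ρ ρ') := by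
  have h1 : 𝔼 ρ : I → Bool, 𝔼 ρ' : I → Bool, f (mix B ρ ρ') =
      𝔼 x : (I → Bool) × (I → Bool), f (mix B x.1 x.2) := by
    rw [← Finset.univ_product_univ, Finset.expect_product]
  have h2 : 𝔼 ρ : I → Bool, 𝔼 _ρ' : I → Bool, f ρ =
      𝔼 x : (I → Bool) × (I → Bool), f x.1 := by
    rw [← Finset.univ_product_univ, Finset.expect_product]
  rw [h1, Fintype.expect_equiv (mixPerm B) (fun x => f (mix B x.1 x.2)) (fun x => f x.1)
    (fun x => rfl), ← h2]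
  simp

end mixing

variable {E : Type*} [NormedAddCommGroup E] [InnerProductSpace ℝ E]
variable {I : Type*}

/-- The barrier operator after `t` rows. -/
noncomputable def Aop (a : I → E) (B : ℕ → Finset I) (σ γ : ℝ) (ρ : I → Bool) :
    ℕ → (E →ₗ[ℝ] E)
  | 0 => (1 / 2 : ℝ) • LinearMap.id
  | t + 1 => Aop a B σ γ ρ t + σ • (rk (vec a (B t) ρ) - γ • Cop a (B t))

/-- First good event. -/
def good1 (a : I → E) (B : Finset I) (p : ℕ) (A : E →ₗ[ℝ] E) : Prop :=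
  ∀ x, ⟪x, Cop a B x⟫_ℝ ≤ (1 / (48 * (p : ℝ))) * ⟪x, A x⟫_ℝ

/-- Second good event. -/
def good2 (v : E) (A : E →ₗ[ℝ] E) : Prop :=
  ∀ x, ⟪v, x⟫_ℝ ^ 2 ≤ (1 / 24) * ⟪x, A x⟫_ℝ

/-- The process has survived `t` rows. -/
def alive (a : I → E) (B : ℕ → Finset I) (p : ℕ) (σ γ : ℝ) (ρ : I → Bool) : ℕ → Prop
  | 0 => True
  | t + 1 => alive a B p σ γ ρ t ∧ good1 a (B t) p (Aop a B σ γ ρ t) ∧
      good2 (vec a (B t) ρ) (Aop a B σ γ ρ t)

section dep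

variable [DecidableEq I]

lemma vec_mix (a : I → E) (B : Finset I) (ρ ρ' : I → Bool) :
    vec a B (mix B ρ ρ') = vec a B ρ' := by
  unfold vec
  exact Finset.sum_congr rfl fun i hi => by simp [mix, hi]

lemma vec_mix_disj (a : I → E) (B B' : Finset I) (h : Disjoint B' B) (ρ ρ' : I → Bool) :
    vec a B' (mix B ρ ρ') = vec a B' ρ := by
  unfold vec
  refine Finset.sum_congr rfl fun i hi => ?_
  have : i ∉ B := Finset.disjoint_left.1 h hi
  simp [mix, this]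

lemma Aop_mix (a : I → E) (B : ℕ → Finset I) (σ γ : ℝ) (ρ ρ' : I → Bool) (D : Finset I) :
    ∀ t, (∀ s < t, Disjoint (B s) D) → Aop a B σ γ (mix D ρ ρ') t = Aop a B σ γ ρ t
  | 0, _ => rfl
  | t + 1, h => by
    rw [Aop, Aop, Aop_mix a B σ γ ρ ρ' D t (fun s hs => h s (by omega)),
      vec_mix_disj a D (B t) (h t (by omega))]

lemma alive_mix (a : I → E) (B : ℕ → Finset I) (p : ℕ) (σ γ : ℝ) (ρ ρ' : I → Bool)
    (D : Finset I) :
    ∀ t, (∀ s < t, Disjoint (B s) D) → (alive a B p σ γ (mix D ρ ρ') t ↔ alive a B p σ γ ρ t)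
  | 0, _ => Iff.rfl
  | t + 1, h => by
    rw [alive, alive, alive_mix a B p σ γ ρ ρ' D t (fun s hs => h s (by omega)),
      Aop_mix a B σ γ ρ ρ' D t (fun s hs => h s (by omega)),
      vec_mix_disj a D (B t) (h t (by omega))]

end dep

lemma PD_start : PD ((1 / 2 : ℝ) • (LinearMap.id : E →ₗ[ℝ] E)) := by
  refine ⟨fun x y => ?_, fun x hx => ?_⟩
  · simp [real_inner_smul_left, real_inner_smul_right]
  · rw [LinearMap.smul_apply, LinearMap.id_apply, real_inner_smul_right,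
      real_inner_self_eq_norm_sq]
    have := norm_pos_iff.2 hx
    positivity

variable [FiniteDimensional ℝ E]

lemma X_start (w : E) : X ((1 / 2 : ℝ) • (LinearMap.id : E →ₗ[ℝ] E)) w = 2 * ‖w‖ ^ 2 := by
  have h := (PD_start (E := E)).apply_inv w
  rw [LinearMap.smul_apply, LinearMap.id_apply] at h
  have h2 : inv ((1 / 2 : ℝ) • (LinearMap.id : E →ₗ[ℝ] E)) w = (2 : ℝ) • w := by
    calc inv ((1 / 2 : ℝ) • (LinearMap.id : E →ₗ[ℝ] E)) w =
        (2 : ℝ) • ((1 / 2 : ℝ) • inv ((1 / 2 : ℝ) • (LinearMap.id : E →ₗ[ℝ] E)) w) := by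
          rw [smul_smul]; norm_num
      _ = (2 : ℝ) • w := by rw [h]
  rw [X, h2, real_inner_smul_right, real_inner_self_eq_norm_sq]

lemma params {σ γ : ℝ} (hσγ : (σ = 1 ∧ γ = 3 / 4) ∨ (σ = -1 ∧ γ = 3 / 2)) {p : ℕ} (hp : 1 ≤ p) :
    (σ = 1 ∨ σ = -1) ∧ 0 ≤ γ ∧ γ * (1 / (48 * (p : ℝ))) ≤ 1 / 4 ∧ 0 < 1 / (48 * (p : ℝ)) := by
  have hP : (1 : ℝ) ≤ p := by exact_mod_cast hp
  have h1 : 1 / (48 * (p : ℝ)) ≤ 1 / 48 := one_div_le_one_div_of_le (by norm_num) (by linarith)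
  have h2 : 0 < 1 / (48 * (p : ℝ)) := by positivity
  rcases hσγ with ⟨h, h'⟩ | ⟨h, h'⟩ <;> rw [h, h'] <;> refine ⟨by simp, by norm_num, by linarith, h2⟩

lemma PD_Aop (a : I → E) (B : ℕ → Finset I) (p : ℕ) (hp : 1 ≤ p) (σ γ : ℝ)
    (hσγ : (σ = 1 ∧ γ = 3 / 4) ∨ (σ = -1 ∧ γ = 3 / 2)) (ρ : I → Bool) :
    ∀ t, alive a B p σ γ ρ t → PD (Aop a B σ γ ρ t)
  | 0, _ => PD_start
  | t + 1, h => by
    obtain ⟨h1, h2, h3⟩ := h
    obtain ⟨hs, hγ, hγε, hε⟩ := params hσγ hp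
    exact (one_step (PD_Aop a B p hp σ γ hσγ ρ t h1) a (B t) (vec a (B t) ρ) 0 σ γ _ (1 / 24) hs hγ
      hε.le (by norm_num) hγε (by norm_num) h2 h3).1

omit [FiniteDimensional ℝ E] in
lemma Aop_form (a : I → E) (B : ℕ → Finset I) (σ γ : ℝ) (ρ : I → Bool) (x : E) (t : ℕ) :
    ⟪x, Aop a B σ γ ρ t x⟫_ℝ = 1 / 2 * ‖x‖ ^ 2 + σ * (∑ s ∈ Finset.range t,
      ⟪vec a (B s) ρ, x⟫_ℝ ^ 2 - γ * ∑ s ∈ Finset.range t, ⟪x, Cop a (B s) x⟫_ℝ) := by
  induction t with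
  | zero =>
    rw [Aop, LinearMap.smul_apply, LinearMap.id_apply, real_inner_smul_right,
      real_inner_self_eq_norm_sq]
    simp
  | succ t ih =>
    rw [Aop, LinearMap.add_apply, inner_add_right, ih, LinearMap.smul_apply,
      LinearMap.sub_apply, LinearMap.smul_apply, real_inner_smul_right, inner_sub_right,
      real_inner_smul_right, inner_rk, Finset.sum_range_succ, Finset.sum_range_succ]
    ring

variable [Fintype I] [DecidableEq I]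

open Classical in
/-- The `p`-th moment of the killed process. -/
noncomputable def sm (a : I → E) (B : ℕ → Finset I) (p : ℕ) (σ γ : ℝ) (t : ℕ) (w : E) : ℝ :=
  𝔼 ρ : I → Bool, if alive a B p σ γ ρ t then X (Aop a B σ γ ρ t) w ^ p else 0

open Classical in
lemma sm_succ (a : I → E) (B : ℕ → Finset I) (hB : ∀ s t, s < t → Disjoint (B s) (B t))
    (p : ℕ) (hp : 1 ≤ p) (σ γ : ℝ)
    (hσγ : (σ = 1 ∧ γ = 3 / 4) ∨ (σ = -1 ∧ γ = 3 / 2)) (t : ℕ) (w : E) :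
    sm a B p σ γ (t + 1) w ≤ sm a B p σ γ t w := by
  unfold sm
  rw [expect_mix (B t)]
  refine Finset.expect_le_expect fun ρ _ => ?_
  have hd : ∀ s < t, Disjoint (B s) (B t) := fun s hs => hB s t hs
  have h1 : ∀ ρ' : I → Bool, (if alive a B p σ γ (mix (B t) ρ ρ') (t + 1) then
      X (Aop a B σ γ (mix (B t) ρ ρ') (t + 1)) w ^ p else 0) =
      if alive a B p σ γ ρ t ∧ good1 a (B t) p (Aop a B σ γ ρ t) then
        (if (∀ x, ⟪vec a (B t) ρ', x⟫_ℝ ^ 2 ≤ (1 / 24) * ⟪x, Aop a B σ γ ρ t x⟫_ℝ) then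
          X (Aop a B σ γ ρ t + σ • (rk (vec a (B t) ρ') - γ • Cop a (B t))) w ^ p else 0)
      else 0 := by
    intro ρ'
    rw [alive, alive_mix a B p σ γ ρ ρ' (B t) t hd, Aop, Aop_mix a B σ γ ρ ρ' (B t) t hd, vec_mix,
      ← ite_and]
    congr 1
    unfold good2
    rw [and_assoc]
  simp_rw [h1]
  by_cases h : alive a B p σ γ ρ t ∧ good1 a (B t) p (Aop a B σ γ ρ t)
  · simp only [h, and_self, if_true]
    exact step_expect (PD_Aop a B p hp σ γ hσγ ρ t h.1) a (B t) w p hp σ γ hσγ h.2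
  · simp only [h, if_false]
    rw [Finset.expect_const_zero]
    split_ifs with h2
    · have := (PD_Aop a B p hp σ γ hσγ ρ t h2).X_nonneg w
      positivity
    · exact le_rfl

lemma sm_le (a : I → E) (B : ℕ → Finset I) (hB : ∀ s t, s < t → Disjoint (B s) (B t))
    (p : ℕ) (hp : 1 ≤ p) (σ γ : ℝ)
    (hσγ : (σ = 1 ∧ γ = 3 / 4) ∨ (σ = -1 ∧ γ = 3 / 2)) (w : E) :
    ∀ t, sm a B p σ γ t w ≤ (2 * ‖w‖ ^ 2) ^ p
  | 0 => by
    unfold sm
    simp [alive, Aop, X_start, -one_div]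
  | t + 1 => (sm_succ a B hB p hp σ γ hσγ t w).trans (sm_le a B hB p hp σ γ hσγ w t)

open Classical in
/-- The probability that the first good event fails. -/
lemma fail1 (a : I → E) (B : ℕ → Finset I) (hB : ∀ s t, s < t → Disjoint (B s) (B t))
    (p : ℕ) (hp : 1 ≤ p) (σ γ : ℝ)
    (hσγ : (σ = 1 ∧ γ = 3 / 4) ∨ (σ = -1 ∧ γ = 3 / 2)) (t : ℕ) (z τ : ℝ) (hz : 0 < z)
    (hC : ∀ x : E, z * ∑ i ∈ B t, ⟪a i, x⟫_ℝ ^ 2 ≤ ‖x‖ ^ 2) (hτ : ∑ i ∈ B t, ‖a i‖ ^ 2 ≤ τ) :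
    𝔼 ρ : I → Bool, (if alive a B p σ γ ρ t ∧ ¬ good1 a (B t) p (Aop a B σ γ ρ t) then
      (1 : ℝ) else 0) ≤ (384 * p / z) ^ p * rexp (z * τ / 2) := by
  obtain ⟨hs, hγ, hγε, hε⟩ := params hσγ hp
  set ε : ℝ := 1 / (48 * (p : ℝ)) with hεdef
  have hP : (1 : ℝ) ≤ p := by exact_mod_cast hp
  set D : ℝ := (p ! : ℝ) * ε ^ p with hD
  have hD0 : 0 < D := by positivity
  have hPD := fun ρ h => PD_Aop a B p hp σ γ hσγ ρ t h
  have h1 : ∀ ρ : I → Bool, D * (if alive a B p σ γ ρ t ∧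
      ¬ good1 a (B t) p (Aop a B σ γ ρ t) then (1 : ℝ) else 0) ≤
      ∫ g, (if alive a B p σ γ ρ t then X (Aop a B σ γ ρ t) (Tg a (B t) g) ^ p else 0)
        ∂(stdGaussian (EuclideanSpace ℝ I)) := by
    intro ρ
    by_cases h : alive a B p σ γ ρ t ∧ ¬ good1 a (B t) p (Aop a B σ γ ρ t)
    · rw [if_pos h, mul_one]
      simp only [h.1, if_true]
      have h2 := h.2
      unfold good1 at h2
      push Not at h2
      obtain ⟨x, hx⟩ := h2
      exact b1_moment (hPD ρ h.1) a (B t) z hz hC p ε hε.le x hx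
    · rw [if_neg h, mul_zero]
      refine integral_nonneg fun g => ?_
      simp only [Pi.zero_apply]
      split_ifs with h2
      · have := (hPD ρ h2).X_nonneg (Tg a (B t) g)
        positivity
      · exact le_rfl
  have hint : ∀ ρ : I → Bool, Integrable (fun g => (if alive a B p σ γ ρ t then
      X (Aop a B σ γ ρ t) (Tg a (B t) g) ^ p else 0)) (stdGaussian (EuclideanSpace ℝ I)) := by
    intro ρ
    split_ifs with h2
    · exact X_Tg_integrable (hPD ρ h2) a (B t) z hz hC p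
    · exact integrable_zero _ _ _
  obtain ⟨hm1, hm2⟩ := Tg_moment a (B t) z τ hz hC hτ p
  have h2 : D * 𝔼 ρ : I → Bool, (if alive a B p σ γ ρ t ∧
      ¬ good1 a (B t) p (Aop a B σ γ ρ t) then (1 : ℝ) else 0) ≤
      2 ^ p * ((p ! : ℝ) * (4 / z) ^ p * rexp (z * τ / 2)) := by
    rw [Finset.mul_expect]
    refine (Finset.expect_le_expect fun ρ _ => h1 ρ).trans ?_
    have hsw : 𝔼 ρ : I → Bool, ∫ g, (if alive a B p σ γ ρ t then
        X (Aop a B σ γ ρ t) (Tg a (B t) g) ^ p else 0) ∂(stdGaussian (EuclideanSpace ℝ I)) =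
        ∫ g, sm a B p σ γ t (Tg a (B t) g) ∂(stdGaussian (EuclideanSpace ℝ I)) := by
      unfold sm
      simp_rw [Fintype.expect_eq_sum_div_card]
      rw [integral_div, integral_finsetSum]
      intro ρ _
      exact hint ρ
    rw [hsw]
    calc ∫ g, sm a B p σ γ t (Tg a (B t) g) ∂(stdGaussian (EuclideanSpace ℝ I))
        ≤ ∫ g, 2 ^ p * (‖Tg a (B t) g‖ ^ 2) ^ p ∂(stdGaussian (EuclideanSpace ℝ I)) := by
          refine integral_mono ?_ (hm1.const_mul _) fun g => ?_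
          · unfold sm
            simp_rw [Fintype.expect_eq_sum_div_card]
            exact (integrable_finsetSum _ fun ρ _ => hint ρ).div_const _
          · have := sm_le a B hB p hp σ γ hσγ (Tg a (B t) g) t
            rwa [mul_pow] at this
      _ ≤ _ := by
          rw [integral_const_mul]
          gcongr
  have h3 : 2 ^ p * ((p ! : ℝ) * (4 / z) ^ p * rexp (z * τ / 2)) =
      D * ((384 * p / z) ^ p * rexp (z * τ / 2)) := by
    have : (384 * (p : ℝ) / z) ^ p = (1 / ε) ^ p * 2 ^ p * (4 / z) ^ p := by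
      rw [← mul_pow, ← mul_pow]
      congr 1
      rw [hεdef]
      field_simp
      ring
    rw [this, hD]
    have hεp : ε ^ p * (1 / ε) ^ p = 1 := by
      rw [← mul_pow, mul_one_div_cancel hε.ne', one_pow]
    calc 2 ^ p * ((p ! : ℝ) * (4 / z) ^ p * rexp (z * τ / 2))
        = (ε ^ p * (1 / ε) ^ p) * (2 ^ p * ((p ! : ℝ) * (4 / z) ^ p * rexp (z * τ / 2))) := by
          rw [hεp, one_mul]
      _ = _ := by ring
  rw [h3] at h2
  exact le_of_mul_le_mul_left h2 hD0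

open Classical in
/-- The probability that the second good event fails. -/
lemma fail2 (a : I → E) (B : ℕ → Finset I) (hB : ∀ s t, s < t → Disjoint (B s) (B t))
    (p : ℕ) (hp : 1 ≤ p) (σ γ : ℝ)
    (hσγ : (σ = 1 ∧ γ = 3 / 4) ∨ (σ = -1 ∧ γ = 3 / 2)) (t : ℕ) (z τ : ℝ) (hz : 0 < z)
    (hC : ∀ x : E, z * ∑ i ∈ B t, ⟪a i, x⟫_ℝ ^ 2 ≤ ‖x‖ ^ 2) (hτ : ∑ i ∈ B t, ‖a i‖ ^ 2 ≤ τ) :
    𝔼 ρ : I → Bool, (if alive a B p σ γ ρ t ∧
      ¬ good2 (vec a (B t) ρ) (Aop a B σ γ ρ t) then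
      (1 : ℝ) else 0) ≤ (192 * p / z) ^ p * rexp (z * τ / 2) := by
  have hP : (1 : ℝ) ≤ p := by exact_mod_cast hp
  have hPD := fun ρ h => PD_Aop a B p hp σ γ hσγ ρ t h
  have hd : ∀ s < t, Disjoint (B s) (B t) := fun s hs => hB s t hs
  have h1 : ∀ ρ : I → Bool, (1 / 24) ^ p * (if alive a B p σ γ ρ t ∧
      ¬ good2 (vec a (B t) ρ) (Aop a B σ γ ρ t) then (1 : ℝ) else 0) ≤
      (if alive a B p σ γ ρ t then X (Aop a B σ γ ρ t) (vec a (B t) ρ) ^ p else 0) := by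
    intro ρ
    by_cases h : alive a B p σ γ ρ t ∧ ¬ good2 (vec a (B t) ρ) (Aop a B σ γ ρ t)
    · rw [if_pos h, mul_one, if_pos h.1]
      have h2 := h.2
      unfold good2 at h2
      push Not at h2
      obtain ⟨x, hx⟩ := h2
      have h3 := (hPD ρ h.1).cs_X (vec a (B t) ρ) x
      have h4 := (hPD ρ h.1).nonneg x
      gcongr
      by_contra hcon
      push Not at hcon
      have : X (Aop a B σ γ ρ t) (vec a (B t) ρ) * ⟪x, Aop a B σ γ ρ t x⟫_ℝ ≤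
        1 / 24 * ⟪x, Aop a B σ γ ρ t x⟫_ℝ := by gcongr
      linarith
    · rw [if_neg h, mul_zero]
      split_ifs with h2
      · have := (hPD ρ h2).X_nonneg (vec a (B t) ρ)
        positivity
      · exact le_rfl
  have h2 : (1 / 24) ^ p * 𝔼 ρ : I → Bool, (if alive a B p σ γ ρ t ∧
      ¬ good2 (vec a (B t) ρ) (Aop a B σ γ ρ t) then (1 : ℝ) else 0) ≤
      2 ^ p * ((p ! : ℝ) * (4 / z) ^ p * rexp (z * τ / 2)) := by
    rw [Finset.mul_expect]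
    refine (Finset.expect_le_expect fun ρ _ => h1 ρ).trans ?_
    rw [expect_mix (B t)]
    have h5 : ∀ ρ ρ' : I → Bool, (if alive a B p σ γ (mix (B t) ρ ρ') t then
        X (Aop a B σ γ (mix (B t) ρ ρ') t) (vec a (B t) (mix (B t) ρ ρ')) ^ p else 0) =
        (if alive a B p σ γ ρ t then X (Aop a B σ γ ρ t) (vec a (B t) ρ') ^ p else 0) := by
      intro ρ ρ'
      simp only [alive_mix a B p σ γ ρ ρ' (B t) t hd, Aop_mix a B σ γ ρ ρ' (B t) t hd, vec_mix]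
    simp_rw [h5]
    rw [Finset.expect_comm]
    calc 𝔼 ρ' : I → Bool, 𝔼 ρ : I → Bool,
          (if alive a B p σ γ ρ t then X (Aop a B σ γ ρ t) (vec a (B t) ρ') ^ p else 0)
        ≤ 𝔼 ρ' : I → Bool, 2 ^ p * (‖vec a (B t) ρ'‖ ^ 2) ^ p := by
          refine Finset.expect_le_expect fun ρ' _ => ?_
          have := sm_le a B hB p hp σ γ hσγ (vec a (B t) ρ') t
          rwa [mul_pow] at this
      _ = 2 ^ p * 𝔼 ρ' : I → Bool, (‖vec a (B t) ρ'‖ ^ 2) ^ p := by rw [← Finset.mul_expect]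
      _ ≤ _ := by
          gcongr
          exact vec_moment a (B t) z τ hz hC hτ p
  have h3 : 2 ^ p * ((p ! : ℝ) * (4 / z) ^ p * rexp (z * τ / 2)) ≤
      (1 / 24) ^ p * ((192 * p / z) ^ p * rexp (z * τ / 2)) := by
    have e1 : (192 * (p : ℝ) / z) ^ p = 24 ^ p * 2 ^ p * (4 / z) ^ p * (p : ℝ) ^ p := by
      rw [← mul_pow, ← mul_pow, ← mul_pow]
      congr 1
      field_simp
      ring
    have e2 : (1 / 24 : ℝ) ^ p * 24 ^ p = 1 := by
      rw [← mul_pow]; norm_num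
    have e3 : (p ! : ℝ) ≤ (p : ℝ) ^ p := by exact_mod_cast Nat.factorial_le_pow p
    calc 2 ^ p * ((p ! : ℝ) * (4 / z) ^ p * rexp (z * τ / 2))
        ≤ 2 ^ p * ((p : ℝ) ^ p * (4 / z) ^ p * rexp (z * τ / 2)) := by gcongr
      _ = ((1 / 24 : ℝ) ^ p * 24 ^ p) * (2 ^ p * ((p : ℝ) ^ p * (4 / z) ^ p *
          rexp (z * τ / 2))) := by rw [e2, one_mul]
      _ = _ := by rw [e1]; ring
  exact le_of_mul_le_mul_left (h2.trans h3) (by positivity)

open Classical in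
/-- The probability that the process is killed. -/
lemma dead_le (a : I → E) (B : ℕ → Finset I) (hB : ∀ s t, s < t → Disjoint (B s) (B t))
    (p : ℕ) (hp : 1 ≤ p) (σ γ : ℝ)
    (hσγ : (σ = 1 ∧ γ = 3 / 4) ∨ (σ = -1 ∧ γ = 3 / 2)) (z τ : ℝ) (hz : 0 < z) (k : ℕ)
    (hC : ∀ t < k, ∀ x : E, z * ∑ i ∈ B t, ⟪a i, x⟫_ℝ ^ 2 ≤ ‖x‖ ^ 2)
    (hτ : ∀ t < k, ∑ i ∈ B t, ‖a i‖ ^ 2 ≤ τ) :
    ∀ t ≤ k, 𝔼 ρ : I → Bool, (if ¬ alive a B p σ γ ρ t then (1 : ℝ) else 0) ≤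
      t * ((384 * p / z) ^ p * rexp (z * τ / 2) + (192 * p / z) ^ p * rexp (z * τ / 2))
  | 0, _ => by simp [alive]
  | t + 1, ht => by
    have ih := dead_le a B hB p hp σ γ hσγ z τ hz k hC hτ t (by omega)
    have f1 := fail1 a B hB p hp σ γ hσγ t z τ hz (hC t (by omega)) (hτ t (by omega))
    have f2 := fail2 a B hB p hp σ γ hσγ t z τ hz (hC t (by omega)) (hτ t (by omega))
    have h1 : ∀ ρ : I → Bool, (if ¬ alive a B p σ γ ρ (t + 1) then (1 : ℝ) else 0) ≤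
        (if ¬ alive a B p σ γ ρ t then (1 : ℝ) else 0) +
        ((if alive a B p σ γ ρ t ∧ ¬ good1 a (B t) p (Aop a B σ γ ρ t) then (1 : ℝ) else 0) +
        (if alive a B p σ γ ρ t ∧ ¬ good2 (vec a (B t) ρ) (Aop a B σ γ ρ t) then
          (1 : ℝ) else 0)) := by
      intro ρ
      rw [alive]
      by_cases q1 : alive a B p σ γ ρ t <;> by_cases q2 : good1 a (B t) p (Aop a B σ γ ρ t) <;>
        by_cases q3 : good2 (vec a (B t) ρ) (Aop a B σ γ ρ t) <;> simp [q1, q2, q3]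
    refine (Finset.expect_le_expect fun ρ _ => h1 ρ).trans ?_
    rw [Finset.expect_add_distrib, Finset.expect_add_distrib]
    push_cast
    linarith

open Classical in
/-- Main estimate for the random signs. -/
theorem signs_main (a : I → E) (B : ℕ → Finset I) (hB : ∀ s t, s < t → Disjoint (B s) (B t))
    (p : ℕ) (hp : 1 ≤ p) (z τ : ℝ) (hz : 0 < z) (k : ℕ)
    (hC : ∀ t < k, ∀ x : E, z * ∑ i ∈ B t, ⟪a i, x⟫_ℝ ^ 2 ≤ ‖x‖ ^ 2)
    (hτ : ∀ t < k, ∑ i ∈ B t, ‖a i‖ ^ 2 ≤ τ)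
    (hsum : ∀ x : E, ∑ t ∈ Finset.range k, ∑ i ∈ B t, ⟪a i, x⟫_ℝ ^ 2 = ‖x‖ ^ 2) :
    𝔼 ρ : I → Bool, (if ¬ (∀ x : E,
      1 / 4 * ‖x‖ ^ 2 ≤ ∑ t ∈ Finset.range k, ⟪vec a (B t) ρ, x⟫_ℝ ^ 2 ∧
      ∑ t ∈ Finset.range k, ⟪vec a (B t) ρ, x⟫_ℝ ^ 2 ≤ 2 * ‖x‖ ^ 2) then (1 : ℝ) else 0) ≤
      2 * k * ((384 * p / z) ^ p * rexp (z * τ / 2) + (192 * p / z) ^ p * rexp (z * τ / 2)) := by
  have d1 := dead_le a B hB p hp 1 (3 / 4) (Or.inl ⟨rfl, rfl⟩) z τ hz k hC hτ k le_rfl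
  have d2 := dead_le a B hB p hp (-1) (3 / 2) (Or.inr ⟨rfl, rfl⟩) z τ hz k hC hτ k le_rfl
  have hs : ∀ x : E, ∑ s ∈ Finset.range k, ⟪x, Cop a (B s) x⟫_ℝ = ‖x‖ ^ 2 := by
    intro x
    simp_rw [Cop_sq]
    exact hsum x
  have h1 : ∀ ρ : I → Bool, (if ¬ (∀ x : E,
      1 / 4 * ‖x‖ ^ 2 ≤ ∑ t ∈ Finset.range k, ⟪vec a (B t) ρ, x⟫_ℝ ^ 2 ∧
      ∑ t ∈ Finset.range k, ⟪vec a (B t) ρ, x⟫_ℝ ^ 2 ≤ 2 * ‖x‖ ^ 2) then (1 : ℝ) else 0) ≤
      (if ¬ alive a B p 1 (3 / 4) ρ k then (1 : ℝ) else 0) +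
      (if ¬ alive a B p (-1) (3 / 2) ρ k then (1 : ℝ) else 0) := by
    intro ρ
    by_cases q1 : alive a B p 1 (3 / 4) ρ k
    · by_cases q2 : alive a B p (-1) (3 / 2) ρ k
      · have q : ∀ x : E,
            1 / 4 * ‖x‖ ^ 2 ≤ ∑ t ∈ Finset.range k, ⟪vec a (B t) ρ, x⟫_ℝ ^ 2 ∧
            ∑ t ∈ Finset.range k, ⟪vec a (B t) ρ, x⟫_ℝ ^ 2 ≤ 2 * ‖x‖ ^ 2 := by
          intro x
          have n1 := (PD_Aop a B p hp 1 (3 / 4) (Or.inl ⟨rfl, rfl⟩) ρ k q1).nonneg x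
          have n2 := (PD_Aop a B p hp (-1) (3 / 2) (Or.inr ⟨rfl, rfl⟩) ρ k q2).nonneg x
          rw [Aop_form, hs] at n1 n2
          constructor <;> linarith
        rw [if_neg (not_not.2 q)]
        positivity
      · have : (if ¬ alive a B p (-1) (3 / 2) ρ k then (1 : ℝ) else 0) = 1 := if_pos q2
        rw [this]
        have : (0 : ℝ) ≤ (if ¬ alive a B p 1 (3 / 4) ρ k then (1 : ℝ) else 0) := by positivity
        split_ifs <;> linarith
    · have : (if ¬ alive a B p 1 (3 / 4) ρ k then (1 : ℝ) else 0) = 1 := if_pos q1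
      rw [this]
      have : (0 : ℝ) ≤ (if ¬ alive a B p (-1) (3 / 2) ρ k then (1 : ℝ) else 0) := by positivity
      split_ifs <;> linarith
  refine (Finset.expect_le_expect fun ρ _ => h1 ρ).trans ?_
  rw [Finset.expect_add_distrib]
  linarith

end Pool.Agent.H77.SS
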