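import Pool.Agent.H77.SS.Forms

/-!
Rademacher sums on the finite probability space `I → Bool`.
-/

open scoped BigOperators
open Finset

namespace Pool.Agent.H77.SS

variable {I : Type*} [Fintype I] [DecidableEq I]

/-- The sign of a Boolean. -/
def sg (b : Bool) : ℝ := if b then 1 else -1

lemma sg_sq (b : Bool) : sg b ^ 2 = 1 := by
  cases b <;> simp [sg]

lemma sg_not (b : Bool) : sg (!b) = - sg b := by
  cases b <;> simp [sg]

/-- Rademacher sum. -/
def S (c : I → ℝ) (B : Finset I) (ρ : I → Bool) : ℝ := ∑ i ∈ B, sg (ρ i) * c i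

omit [Fintype I] in
lemma S_insert (c : I → ℝ) (B : Finset I) (ρ : I → Bool) {i : I} (hi : i ∉ B) :
    S c (insert i B) ρ = sg (ρ i) * c i + S c B ρ := by
  unfold S
  rw [sum_insert hi]

omit [Fintype I] in
lemma S_update (c : I → ℝ) (B : Finset I) (ρ : I → Bool) {i : I} (hi : i ∉ B) (b : Bool) :
    S c B (Function.update ρ i b) = S c B ρ := by
  unfold S
  refine sum_congr rfl fun j hj => ?_
  rw [Function.update_of_ne (by rintro rfl; exact hi hj)]

/-- Flip one sign. -/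
def flipPerm (i : I) : (I → Bool) ≃ (I → Bool) :=
  Function.Involutive.toPerm (fun ρ => Function.update ρ i (!ρ i)) (by
    intro ρ
    ext j
    by_cases h : j = i
    · subst h; simp
    · simp [Function.update_of_ne h])

lemma expect_flip (i : I) (f : (I → Bool) → ℝ) :
    𝔼 ρ, f ρ = 𝔼 ρ, (f ρ + f (Function.update ρ i (!ρ i))) / 2 := by
  have h : 𝔼 ρ, f (Function.update ρ i (!ρ i)) = 𝔼 ρ, f ρ :=
    Fintype.expect_equiv (flipPerm i) _ _ (fun ρ => rfl)
  rw [← Finset.expect_div, Finset.expect_add_distrib, h]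
  ring

lemma rad_exp (c : I → ℝ) (B : Finset I) : ∀ b : ℝ, 0 ≤ b → 2 * b * ∑ i ∈ B, c i ^ 2 < 1 →
    𝔼 ρ : I → Bool, Real.exp (b * S c B ρ ^ 2) ≤
      Real.exp (b * (∑ i ∈ B, c i ^ 2) / (1 - 2 * b * ∑ i ∈ B, c i ^ 2)) := by
  induction B using Finset.induction_on with
  | empty =>
    intro b hb hs
    simp [S]
  | insert i B hi ih =>
    intro b hb hs
    rw [sum_insert hi] at hs ⊢
    set s' := ∑ j ∈ B, c j ^ 2 with hs'
    have hs0 : 0 ≤ s' := by positivity
    have hc0 : 0 ≤ c i ^ 2 := by positivity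
    rw [expect_flip i]
    have h1 : ∀ ρ : I → Bool, (Real.exp (b * S c (insert i B) ρ ^ 2) +
        Real.exp (b * S c (insert i B) (Function.update ρ i (!ρ i)) ^ 2)) / 2 ≤
        Real.exp (b * c i ^ 2) * Real.exp ((b * (1 + 2 * b * c i ^ 2)) * S c B ρ ^ 2) := by
      intro ρ
      rw [S_insert c B ρ hi, S_insert c B _ hi, S_update c B ρ hi, Function.update_self, sg_not]
      set x := sg (ρ i) with hx
      have hx2 : x ^ 2 = 1 := sg_sq _
      set T := S c B ρ
      have e1 : b * (x * c i + T) ^ 2 = b * (c i ^ 2 + T ^ 2) + 2 * b * x * c i * T := by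
        have : (x * c i + T) ^ 2 = x ^ 2 * c i ^ 2 + 2 * x * c i * T + T ^ 2 := by ring
        rw [this, hx2]; ring
      have e2 : b * (-x * c i + T) ^ 2 = b * (c i ^ 2 + T ^ 2) + -(2 * b * x * c i * T) := by
        have : (-x * c i + T) ^ 2 = x ^ 2 * c i ^ 2 - 2 * x * c i * T + T ^ 2 := by ring
        rw [this, hx2]; ring
      rw [e1, e2, Real.exp_add, Real.exp_add]
      have e3 : (Real.exp (b * (c i ^ 2 + T ^ 2)) * Real.exp (2 * b * x * c i * T) +
          Real.exp (b * (c i ^ 2 + T ^ 2)) * Real.exp (-(2 * b * x * c i * T))) / 2 =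
          Real.exp (b * (c i ^ 2 + T ^ 2)) * Real.cosh (2 * b * x * c i * T) := by
        rw [Real.cosh_eq]; ring
      rw [e3]
      calc Real.exp (b * (c i ^ 2 + T ^ 2)) * Real.cosh (2 * b * x * c i * T)
          ≤ Real.exp (b * (c i ^ 2 + T ^ 2)) * Real.exp ((2 * b * x * c i * T) ^ 2 / 2) := by
            gcongr
            exact Real.cosh_le_exp_half_sq _
        _ = _ := by
            rw [← Real.exp_add, ← Real.exp_add]
            congr 1
            have : (2 * b * x * c i * T) ^ 2 = 4 * b ^ 2 * x ^ 2 * c i ^ 2 * T ^ 2 := by ring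
            rw [this, hx2]; ring
    refine (Finset.expect_le_expect fun ρ _ => h1 ρ).trans ?_
    rw [← Finset.mul_expect]
    have hu : 0 ≤ 2 * b * c i ^ 2 := by positivity
    have hv : 0 ≤ 2 * b * s' := by positivity
    have huv : 2 * b * c i ^ 2 + 2 * b * s' < 1 := by linarith
    have hb' : 2 * (b * (1 + 2 * b * c i ^ 2)) * s' < 1 := by
      nlinarith
    refine (mul_le_mul_of_nonneg_left (ih _ (by positivity) hb') (Real.exp_nonneg _)).trans ?_
    rw [← Real.exp_add]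
    apply Real.exp_le_exp.2
    have hd1 : 0 < 1 - 2 * (b * (1 + 2 * b * c i ^ 2)) * s' := by linarith
    have hd2 : 0 < 1 - 2 * b * (c i ^ 2 + s') := by linarith
    have g1 : b * (1 + 2 * b * c i ^ 2) * s' / (1 - 2 * (b * (1 + 2 * b * c i ^ 2)) * s') ≤
        b * s' / (1 - 2 * b * (c i ^ 2 + s')) := by
      rw [div_le_div_iff₀ hd1 hd2]
      have : b * s' * (1 - 2 * (b * (1 + 2 * b * c i ^ 2)) * s') -
          b * (1 + 2 * b * c i ^ 2) * s' * (1 - 2 * b * (c i ^ 2 + s')) =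
          b * s' * (2 * b * c i ^ 2) ^ 2 := by ring
      have h2 : 0 ≤ b * s' * (2 * b * c i ^ 2) ^ 2 := by positivity
      linarith
    have g2 : b * c i ^ 2 ≤ b * c i ^ 2 / (1 - 2 * b * (c i ^ 2 + s')) := by
      rw [le_div_iff₀ hd2]
      have : 0 ≤ b * c i ^ 2 := by positivity
      nlinarith
    calc b * c i ^ 2 + b * (1 + 2 * b * c i ^ 2) * s' /
          (1 - 2 * (b * (1 + 2 * b * c i ^ 2)) * s')
        ≤ b * c i ^ 2 / (1 - 2 * b * (c i ^ 2 + s')) + b * s' / (1 - 2 * b * (c i ^ 2 + s')) :=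
          add_le_add g2 g1
      _ = _ := by rw [← add_div]; ring

lemma rad_two (c : I → ℝ) (B : Finset I) :
    𝔼 ρ : I → Bool, S c B ρ ^ 2 = ∑ i ∈ B, c i ^ 2 := by
  induction B using Finset.induction_on with
  | empty => simp [S]
  | insert i B hi ih =>
    rw [expect_flip i, sum_insert hi, ← ih]
    have : ∀ ρ : I → Bool, (S c (insert i B) ρ ^ 2 +
        S c (insert i B) (Function.update ρ i (!ρ i)) ^ 2) / 2 = c i ^ 2 + S c B ρ ^ 2 := by
      intro ρ
      rw [S_insert c B ρ hi, S_insert c B _ hi, S_update c B ρ hi, Function.update_self, sg_not]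
      have := sg_sq (ρ i)
      linear_combination (c i ^ 2) * this
    simp_rw [this]
    rw [Finset.expect_add_distrib, Fintype.expect_const]

lemma rad_four (c : I → ℝ) (B : Finset I) :
    𝔼 ρ : I → Bool, S c B ρ ^ 4 ≤ 3 * (∑ i ∈ B, c i ^ 2) ^ 2 := by
  induction B using Finset.induction_on with
  | empty => simp [S]
  | insert i B hi ih =>
    rw [expect_flip i, sum_insert hi]
    have : ∀ ρ : I → Bool, (S c (insert i B) ρ ^ 4 +
        S c (insert i B) (Function.update ρ i (!ρ i)) ^ 4) / 2 =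
        c i ^ 4 + (6 * c i ^ 2 * S c B ρ ^ 2 + S c B ρ ^ 4) := by
      intro ρ
      rw [S_insert c B ρ hi, S_insert c B _ hi, S_update c B ρ hi, Function.update_self, sg_not]
      have h2 := sg_sq (ρ i)
      linear_combination (c i ^ 4 * (sg (ρ i) ^ 2 + 1) + 6 * c i ^ 2 * S c B ρ ^ 2) * h2
    simp_rw [this]
    rw [Finset.expect_add_distrib, Fintype.expect_const, Finset.expect_add_distrib,
      ← Finset.mul_expect, rad_two]
    have h0 : 0 ≤ ∑ j ∈ B, c j ^ 2 := by positivity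
    nlinarith [sq_nonneg (c i ^ 2)]

/-- The key moment generating function estimate, for both signs. -/
lemma rad_key (c : I → ℝ) (B : Finset I) (b σ : ℝ) (hσ : σ = 1 ∨ σ = -1) (hb : 0 ≤ b)
    (hs : b * ∑ i ∈ B, c i ^ 2 ≤ 1 / 4) :
    𝔼 ρ : I → Bool, Real.exp (-σ * b * S c B ρ ^ 2) ≤
      Real.exp (-σ * b * (∑ i ∈ B, c i ^ 2) + 4 * b ^ 2 * (∑ i ∈ B, c i ^ 2) ^ 2) := by
  set s := ∑ i ∈ B, c i ^ 2 with hsdef
  have hs0 : 0 ≤ s := by positivity
  have hbs : 0 ≤ b * s := by positivity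
  rcases hσ with h | h
  · subst h
    have h1 : ∀ ρ : I → Bool, Real.exp (-1 * b * S c B ρ ^ 2) ≤
        1 - b * S c B ρ ^ 2 + b ^ 2 / 2 * S c B ρ ^ 4 := by
      intro ρ
      have hx : 0 ≤ b * S c B ρ ^ 2 := by positivity
      have h2 : Real.exp (-(b * S c B ρ ^ 2)) ≤
          1 - b * S c B ρ ^ 2 + (b * S c B ρ ^ 2) ^ 2 / 2 := by
        have h3 := Real.quadratic_le_exp_of_nonneg hx
        set x := b * S c B ρ ^ 2
        rw [Real.exp_neg]
        have hpos : 0 < 1 + x + x ^ 2 / 2 := by positivity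
        calc (Real.exp x)⁻¹ ≤ (1 + x + x ^ 2 / 2)⁻¹ := by gcongr
          _ ≤ 1 - x + x ^ 2 / 2 := by
            rw [inv_le_iff_one_le_mul₀ hpos]
            nlinarith [sq_nonneg (x ^ 2)]
      have e : -1 * b * S c B ρ ^ 2 = -(b * S c B ρ ^ 2) := by ring
      rw [e]
      refine h2.trans (le_of_eq ?_)
      ring
    refine (Finset.expect_le_expect fun ρ _ => h1 ρ).trans ?_
    rw [Finset.expect_add_distrib, Finset.expect_sub_distrib, Fintype.expect_const,
      ← Finset.mul_expect, ← Finset.mul_expect, rad_two]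
    have h4 := rad_four c B
    rw [← hsdef] at h4 ⊢
    have h5 : b ^ 2 / 2 * 𝔼 ρ : I → Bool, S c B ρ ^ 4 ≤ b ^ 2 / 2 * (3 * s ^ 2) := by gcongr
    have h6 : (-1 * b * s + 4 * b ^ 2 * s ^ 2) + 1 ≤ Real.exp (-1 * b * s + 4 * b ^ 2 * s ^ 2) :=
      Real.add_one_le_exp _
    nlinarith [sq_nonneg (b * s)]
  · subst h
    have h1 : 2 * b * s < 1 := by linarith
    have h2 := rad_exp c B b hb h1
    rw [← hsdef] at h2
    have e : ∀ ρ : I → Bool, -(-1 : ℝ) * b * S c B ρ ^ 2 = b * S c B ρ ^ 2 := by intro ρ; ring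
    simp_rw [e]
    refine h2.trans (Real.exp_le_exp.2 ?_)
    rw [div_le_iff₀ (by linarith)]
    have e2 : (-(-1) * b * s + 4 * b ^ 2 * s ^ 2) * (1 - 2 * b * s) - b * s =
      (b * s) ^ 2 * (2 - 8 * (b * s)) := by ring
    have : 0 ≤ (b * s) ^ 2 * (2 - 8 * (b * s)) := by
      apply mul_nonneg (by positivity); linarith
    linarith

end Pool.Agent.H77.SS
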