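import Pool.Agent.H77.SS.Process

/-!
Rows indexed by a finite type, and the Chernoff bound for the positions.
-/

open scoped BigOperators InnerProductSpace
open Real

namespace Pool.Agent.H77.SS

section rows

variable {E : Type*} [NormedAddCommGroup E] [InnerProductSpace ℝ E] [FiniteDimensional ℝ E]
variable {I : Type*} [Fintype I] [DecidableEq I]

/-- Transport of the rows to natural numbers. -/
noncomputable def rowN {R : Type*} [Fintype R] (B : R → Finset I) (t : ℕ) : Finset I :=
  if h : t < Fintype.card R then B ((Fintype.equivFin R).symm ⟨t, h⟩) else ∅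

omit [Fintype I] [DecidableEq I] in
lemma rowN_lt {R : Type*} [Fintype R] (B : R → Finset I) {t : ℕ} (h : t < Fintype.card R) :
    rowN B t = B ((Fintype.equivFin R).symm ⟨t, h⟩) := by
  simp [rowN, h]

omit [Fintype I] [DecidableEq I] in
lemma sum_rowN {R : Type*} [Fintype R] (B : R → Finset I) (F : Finset I → ℝ) :
    ∑ t ∈ Finset.range (Fintype.card R), F (rowN B t) = ∑ c, F (B c) := by
  rw [Finset.sum_range]
  rw [← (Fintype.equivFin R).sum_comp]
  refine Finset.sum_congr rfl fun c _ => ?_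
  rw [rowN_lt B (Fin.is_lt _)]
  simp

open Classical in
theorem signs_rows {R : Type*} [Fintype R] (a : I → E) (B : R → Finset I)
    (hB : ∀ c d, c ≠ d → Disjoint (B c) (B d))
    (p : ℕ) (hp : 1 ≤ p) (z τ : ℝ) (hz : 0 < z)
    (hC : ∀ c, ∀ x : E, z * ∑ i ∈ B c, ⟪a i, x⟫_ℝ ^ 2 ≤ ‖x‖ ^ 2)
    (hτ : ∀ c, ∑ i ∈ B c, ‖a i‖ ^ 2 ≤ τ)
    (hsum : ∀ x : E, ∑ c, ∑ i ∈ B c, ⟪a i, x⟫_ℝ ^ 2 = ‖x‖ ^ 2) :
    𝔼 ρ : I → Bool, (if ¬ (∀ x : E,
      1 / 4 * ‖x‖ ^ 2 ≤ ∑ c, ⟪vec a (B c) ρ, x⟫_ℝ ^ 2 ∧
      ∑ c, ⟪vec a (B c) ρ, x⟫_ℝ ^ 2 ≤ 2 * ‖x‖ ^ 2) then (1 : ℝ) else 0) ≤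
      2 * Fintype.card R *
        ((384 * p / z) ^ p * rexp (z * τ / 2) + (192 * p / z) ^ p * rexp (z * τ / 2)) := by
  have h := signs_main a (rowN B) (by
    intro s t hst
    unfold rowN
    split_ifs with h1 h2 h2
    · apply hB
      intro he
      have := (Fintype.equivFin R).symm.injective he
      rw [Fin.mk.injEq] at this
      omega
    · exact Finset.disjoint_empty_right _
    · exact Finset.disjoint_empty_left _
    · exact Finset.disjoint_empty_left _) p hp z τ hz (Fintype.card R)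
    (fun t ht x => by rw [rowN_lt B ht]; exact hC _ x)
    (fun t ht => by rw [rowN_lt B ht]; exact hτ _)
    (fun x => by rw [sum_rowN B (fun D => ∑ i ∈ D, ⟪a i, x⟫_ℝ ^ 2)]; exact hsum x)
  have e : ∀ (ρ : I → Bool) (x : E), ∑ t ∈ Finset.range (Fintype.card R),
      ⟪vec a (rowN B t) ρ, x⟫_ℝ ^ 2 = ∑ c, ⟪vec a (B c) ρ, x⟫_ℝ ^ 2 := fun ρ x =>
    sum_rowN B (fun D => ⟪vec a D ρ, x⟫_ℝ ^ 2)
  simp only [e] at h
  exact h

end rows

section positions

variable {I : Type*} [Fintype I] [DecidableEq I]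

lemma expect_prod {b : ℕ} (G : I → Fin b → ℝ) :
    𝔼 s : I → Fin b, ∏ i, G i (s i) = ∏ i, 𝔼 c, G i c := by
  simp_rw [Fintype.expect_eq_sum_div_card]
  rw [Finset.prod_div_distrib, Finset.prod_univ_sum]
  simp

/-- Chernoff bound for the weight of a bucket. -/
lemma chernoff {b : ℕ} (hb : 1 ≤ b) (J : Finset I) (y : I → ℝ) (hy0 : ∀ i, 0 ≤ y i)
    (hy1 : ∀ i, y i ≤ 1) (c : Fin b) (r : ℝ) (hr : ∑ i ∈ J, y i ≤ r) (T : ℝ) :
    𝔼 s : I → Fin b, (if T < ∑ i ∈ J with s i = c, y i then (1 : ℝ) else 0) ≤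
      rexp (-T + (rexp 1 - 1) * r / b) := by
  have hb0 : (0 : ℝ) < b := by exact_mod_cast hb
  have : Nonempty (Fin b) := ⟨c⟩
  set G : I → Fin b → ℝ := fun i d => if i ∈ J ∧ d = c then rexp (y i) else 1 with hG
  have h1 : ∀ s : I → Fin b, (if T < ∑ i ∈ J with s i = c, y i then (1 : ℝ) else 0) ≤
      rexp (-T) * ∏ i, G i (s i) := by
    intro s
    have e : ∏ i, G i (s i) = rexp (∑ i ∈ J with s i = c, y i) := by
      rw [Real.exp_sum, Finset.prod_filter]
      rw [← Finset.prod_filter_mul_prod_filter_not Finset.univ (· ∈ J)]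
      simp only [Finset.filter_univ_mem]
      have : ∏ i with i ∉ J, G i (s i) = 1 := by
        refine Finset.prod_eq_one fun i hi => ?_
        simp only [Finset.mem_filter, Finset.mem_univ, true_and] at hi
        simp [hG, hi]
      rw [this, mul_one]
      refine Finset.prod_congr rfl fun i hi => ?_
      simp [hG, hi]
    rw [e, ← Real.exp_add]
    split_ifs with h
    · exact Real.one_le_exp (by linarith)
    · exact (exp_pos _).le
  refine (Finset.expect_le_expect fun s _ => h1 s).trans ?_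
  rw [← Finset.mul_expect, expect_prod, Real.exp_add]
  gcongr
  have h2 : ∀ i, 𝔼 d, G i d ≤ rexp (if i ∈ J then (rexp 1 - 1) * y i / b else 0) := by
    intro i
    by_cases hi : i ∈ J
    · rw [if_pos hi]
      have e : 𝔼 d, G i d = 1 + (rexp (y i) - 1) / b := by
        have e1 : ∀ d, G i d = 1 + (if d = c then (rexp (y i) - 1) else 0) := by
          intro d
          by_cases hd : d = c <;> simp [hG, hi, hd]
        simp_rw [e1]
        rw [Finset.expect_add_distrib, Fintype.expect_const, Fintype.expect_eq_sum_div_card]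
        simp
      rw [e]
      have h3 : rexp (y i) - 1 ≤ (rexp 1 - 1) * y i := by
        have := convexOn_exp.2 (Set.mem_univ (0 : ℝ)) (Set.mem_univ (1 : ℝ))
          (show 0 ≤ 1 - y i by linarith [hy1 i]) (hy0 i) (by ring)
        simp only [smul_eq_mul, mul_zero, mul_one, zero_add, Real.exp_zero] at this
        linarith
      calc 1 + (rexp (y i) - 1) / b ≤ 1 + (rexp 1 - 1) * y i / b := by gcongr
        _ ≤ _ := by
          have := Real.add_one_le_exp ((rexp 1 - 1) * y i / b)
          linarith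
    · rw [if_neg hi, Real.exp_zero]
      have : ∀ d, G i d = 1 := by intro d; simp [hG, hi]
      simp_rw [this]
      rw [Fintype.expect_const]
  calc ∏ i, 𝔼 d, G i d ≤ ∏ i, rexp (if i ∈ J then (rexp 1 - 1) * y i / b else 0) := by
        refine Finset.prod_le_prod (fun i _ => ?_) fun i _ => h2 i
        refine Finset.expect_nonneg fun d _ => ?_
        simp only [hG]
        split_ifs
        · exact (exp_pos _).le
        · norm_num
    _ = rexp ((rexp 1 - 1) * (∑ i ∈ J, y i) / b) := by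
        rw [← Real.exp_sum]
        congr 1
        rw [Finset.sum_ite_mem, Finset.univ_inter, Finset.mul_sum, Finset.sum_div]
    _ ≤ _ := by
        apply Real.exp_le_exp.2
        have : 0 ≤ rexp 1 - 1 := by
          have := Real.add_one_le_exp (1 : ℝ); linarith
        gcongr

end positions

end Pool.Agent.H77.SS
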